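import Mathlib

set_option autoImplicit false

/-!
Weak solutions of the Navier-Stokes equations on the torus `(ℝ / 2πℤ) ^ 3`, in terms of the Fourier
coefficients.
-/

namespace Pool.Agent.Helper30.TB

open MeasureTheory Set Filter Topology

/-- wave vectors -/
abbrev Wv := Fin 3 → ℤ

/-- the square of the length of a wave vector -/
def nsq (k : Wv) : ℝ := ∑ i, (k i : ℝ) ^ 2

/-- Fourier coefficients of a vector field on the torus `(ℝ / 2πℤ) ^ 3` -/
abbrev Fld := Wv → Fin 3 → ℂ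

/-- the scalar product `a · k` -/
def dt (a : Fin 3 → ℂ) (k : Wv) : ℂ := ∑ i, a i * (k i : ℂ)

/-- the orthogonal projection onto the plane `k^⊥` -/
noncomputable def prj (k : Wv) (a : Fin 3 → ℂ) : Fin 3 → ℂ :=
  fun i => a i - dt a k * (k i : ℂ) / (nsq k : ℂ)

/-- the field is real, divergence free and has mean zero -/
structure Adm (u : Fld) : Prop where
  zero : u 0 = 0
  div : ∀ k, dt (u k) k = 0
  real : ∀ k i, u (-k) i = (starRingEnd ℂ) (u k i)

/-- `|u_k|²` -/
noncomputable def msq (u : Fld) (k : Wv) : ℝ := ∑ j, ‖u k j‖ ^ 2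

/-- the Fourier coefficients of `(u · ∇) u`, divided by `i`: `∑_{k + l = m} (u_k · l) u_l` -/
noncomputable def conv (u : Fld) (m : Wv) : Fin 3 → ℂ :=
  fun j => ∑' k, dt (u k) (m - k) * u (m - k) j

/-- `u` is a weak solution on `[0, T]` with the viscosity `ν` and the force `f`, which is square
integrable in space and time: it has bounded energy and finite dissipation, is weakly continuous in
time and satisfies the equation `∂ₜ u = ν Δ u - P (u · ∇) u + f`, integrated in time. No energy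
inequality is assumed. -/
structure IsWeakSolution (ν T : ℝ) (u f : ℝ → Fld) : Prop where
  adm : ∀ t ∈ Icc 0 T, Adm (u t)
  cont : ∀ k j, ContinuousOn (fun t => u t k j) (Icc 0 T)
  energy : ∃ C : ℝ, ∀ t ∈ Icc 0 T, ∀ S : Finset Wv, ∑ k ∈ S, msq (u t) k ≤ C
  diss : ∃ C : ℝ, ∀ S : Finset Wv, ∫ t in (0 : ℝ)..T, ∑ k ∈ S, nsq k * msq (u t) k ≤ C
  fadm : ∀ t ∈ Icc 0 T, Adm (f t)
  fmeas : ∀ k j, Measurable fun t => f t k j
  fint : ∀ k j, IntervalIntegrable (fun t => ‖f t k j‖ ^ 2) volume 0 T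
  fbdd : ∃ C : ℝ, ∀ S : Finset Wv, ∫ t in (0 : ℝ)..T, ∑ k ∈ S, msq (f t) k ≤ C
  eqn : ∀ k, k ≠ 0 → ∀ j, ∀ t ∈ Icc 0 T, u t k j = u 0 k j + ∫ s in (0 : ℝ)..t,
    (-((ν * nsq k : ℝ) : ℂ) * u s k j - Complex.I * prj k (conv (u s) k) j + f s k j)

/-- the square of the norm in `L²` (with the normalised measure) -/
noncomputable def nrm2 (u : Fld) : ℝ := ∑' k, msq u k

/-- the enstrophy: the square of the norm of the gradient -/
noncomputable def ens (u : Fld) : ℝ := ∑' k, nsq k * msq u k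

/-- the power of the force -/
noncomputable def work (f u : Fld) : ℝ := ∑' k, ∑ j, ((starRingEnd ℂ) (u k j) * f k j).re

/-- The energy defect: the energy inequality between the times `0` and `t` says that it is
nonnegative, the energy equality that it is zero. -/
noncomputable def energyDefect (ν : ℝ) (u f : ℝ → Fld) (t : ℝ) : ℝ :=
  nrm2 (u 0) / 2 + (∫ s in (0 : ℝ)..t, work (f s) (u s)) - nrm2 (u t) / 2
    - ν * ∫ s in (0 : ℝ)..t, ens (u s)

/-- `K = liminf_{N → ∞} N^{5/2} ∫₀ᵀ ∑_{N < |k| ≤ N^{5/4}} |u_k|² dτ`: the energy in the band of the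
wave vectors with `N < |k| ≤ N^{5/4}`, integrated in time. -/
noncomputable def bandK (T : ℝ) (u : ℝ → Fld) : ENNReal :=
  liminf (fun N : ℕ => ENNReal.ofReal ((N : ℝ) ^ (5 / 2 : ℝ) * ∫ τ in (0 : ℝ)..T,
    ∑' k, ({k : Wv | (N : ℝ) ^ 2 < nsq k ∧ nsq k ≤ (N : ℝ) ^ (5 / 2 : ℝ)}).indicator
      (msq (u τ)) k)) atTop

end Pool.Agent.Helper30.TB
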