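import Mathlib
import Pool.Agent.Helper30.TB.Def

/-!
The bound of the energy flux through a sphere in the Fourier space.
-/

set_option autoImplicit false

namespace Pool.Agent.Helper30.TB

open MeasureTheory Set Filter Topology

/-- `|u_k|` -/
noncomputable def am (u : Fld) (k : Wv) : ℝ := Real.sqrt (msq u k)

theorem msq_nonneg (u : Fld) (k : Wv) : 0 ≤ msq u k := Finset.sum_nonneg fun _ _ => sq_nonneg _

theorem am_nonneg (u : Fld) (k : Wv) : 0 ≤ am u k := Real.sqrt_nonneg _

theorem am_sq (u : Fld) (k : Wv) : am u k ^ 2 = msq u k := Real.sq_sqrt (msq_nonneg u k)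

theorem nsq_nonneg (k : Wv) : 0 ≤ nsq k := Finset.sum_nonneg fun _ _ => sq_nonneg _

theorem nsq_neg (k : Wv) : nsq (-k) = nsq k := by
  unfold nsq
  refine Finset.sum_congr rfl fun i _ => ?_
  rw [Pi.neg_apply]
  push_cast
  ring

theorem norm_dt_le (a : Fin 3 → ℂ) (k : Wv) :
    ‖dt a k‖ ≤ Real.sqrt (∑ j, ‖a j‖ ^ 2) * Real.sqrt (nsq k) := by
  unfold dt nsq
  calc ‖∑ i, a i * (k i : ℂ)‖ ≤ ∑ i, ‖a i * (k i : ℂ)‖ := norm_sum_le _ _
    _ = ∑ i, ‖a i‖ * |(k i : ℝ)| := by
        refine Finset.sum_congr rfl fun i _ => ?_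
        rw [norm_mul, Complex.norm_intCast]
    _ ≤ Real.sqrt (∑ i, ‖a i‖ ^ 2) * Real.sqrt (∑ i, |(k i : ℝ)| ^ 2) :=
        Real.sum_mul_le_sqrt_mul_sqrt _ _ _
    _ = _ := by simp only [sq_abs]

theorem norm_inner_le (a b : Fin 3 → ℂ) :
    ‖∑ j, (starRingEnd ℂ) (a j) * b j‖
      ≤ Real.sqrt (∑ j, ‖a j‖ ^ 2) * Real.sqrt (∑ j, ‖b j‖ ^ 2) := by
  calc ‖∑ j, (starRingEnd ℂ) (a j) * b j‖ ≤ ∑ j, ‖(starRingEnd ℂ) (a j) * b j‖ := norm_sum_le _ _
    _ = ∑ j, ‖a j‖ * ‖b j‖ := by
        refine Finset.sum_congr rfl fun i _ => ?_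
        rw [norm_mul, RCLike.norm_conj]
    _ ≤ _ := Real.sum_mul_le_sqrt_mul_sqrt _ _ _

theorem dt_sub (a : Fin 3 → ℂ) (m k : Wv) : dt a (m - k) = dt a m - dt a k := by
  unfold dt
  rw [← Finset.sum_sub_distrib]
  refine Finset.sum_congr rfl fun i _ => ?_
  rw [Pi.sub_apply]
  push_cast
  ring

theorem dt_neg (a : Fin 3 → ℂ) (m : Wv) : dt a (-m) = -dt a m := by
  unfold dt
  rw [← Finset.sum_neg_distrib]
  refine Finset.sum_congr rfl fun i _ => ?_
  rw [Pi.neg_apply]
  push_cast
  ring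

/-- the ball of radius `N` in the Fourier space -/
noncomputable def bl (N : ℕ) : Finset Wv :=
  open Classical in
  (Fintype.piFinset fun _ : Fin 3 => Finset.Icc (-(N : ℤ)) (N : ℤ)).filter
    fun k => nsq k ≤ (N : ℝ) ^ 2

theorem mem_bl {N : ℕ} {k : Wv} : k ∈ bl N ↔ nsq k ≤ (N : ℝ) ^ 2 := by
  classical
  unfold bl
  rw [Finset.mem_filter, Fintype.mem_piFinset]
  refine ⟨fun h => h.2, fun h => ⟨fun i => ?_, h⟩⟩
  have h1 : (k i : ℝ) ^ 2 ≤ (N : ℝ) ^ 2 :=
    (Finset.single_le_sum (f := fun i => (k i : ℝ) ^ 2) (fun _ _ => sq_nonneg _)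
      (Finset.mem_univ i)).trans h
  have h2 := abs_le_of_sq_le_sq' h1 (Nat.cast_nonneg N)
  rw [Finset.mem_Icc]
  constructor
  · have := h2.1
    exact_mod_cast this
  · have := h2.2
    exact_mod_cast this

theorem card_bl (N : ℕ) : ((bl N).card : ℝ) ≤ (2 * (N : ℝ) + 1) ^ 3 := by
  classical
  have h1 : (bl N).card ≤ (Fintype.piFinset fun _ : Fin 3 => Finset.Icc (-(N : ℤ)) (N : ℤ)).card :=
    Finset.card_filter_le _ _
  rw [Fintype.card_piFinset] at h1
  simp only [Int.card_Icc, Finset.prod_const, Finset.card_univ, Fintype.card_fin] at h1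
  have h2 : ((N : ℤ) + 1 - (-(N : ℤ))).toNat = 2 * N + 1 := by omega
  rw [h2] at h1
  calc ((bl N).card : ℝ) ≤ (((2 * N + 1) ^ 3 : ℕ) : ℝ) := by exact_mod_cast h1
    _ = _ := by push_cast; ring

theorem neg_mem_bl {N : ℕ} {k : Wv} : -k ∈ bl N ↔ k ∈ bl N := by
  rw [mem_bl, mem_bl, nsq_neg]

/-- the energy flux through the sphere of radius `N` -/
noncomputable def flux (u : Fld) (N : ℕ) : ℝ :=
  (∑ m ∈ bl N, ∑ j, (starRingEnd ℂ) (u m j) * conv u m j).im

/-- the part of the energy outside the ball -/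
noncomputable def tailE (u : Fld) (N : ℕ) : ℝ :=
  ∑' k, ({k : Wv | (N : ℝ) ^ 2 < nsq k}).indicator (msq u) k

/-- the amplitudes outside the ball -/
noncomputable def bo (u : Fld) (N : ℕ) (k : Wv) : ℝ :=
  ({k : Wv | (N : ℝ) ^ 2 < nsq k}).indicator (am u) k

theorem bo_nonneg (u : Fld) (N : ℕ) (k : Wv) : 0 ≤ bo u N k :=
  indicator_nonneg (fun _ _ => am_nonneg _ _) k

theorem bo_le (u : Fld) (N : ℕ) (k : Wv) : bo u N k ≤ am u k :=
  indicator_le_self' (fun _ _ => am_nonneg _ _) k

theorem bo_sq (u : Fld) (N : ℕ) (k : Wv) :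
    bo u N k ^ 2 = ({k : Wv | (N : ℝ) ^ 2 < nsq k}).indicator (msq u) k := by
  unfold bo
  by_cases h : k ∈ {k : Wv | (N : ℝ) ^ 2 < nsq k}
  · rw [indicator_of_mem h, indicator_of_mem h, am_sq]
  · rw [indicator_of_notMem h, indicator_of_notMem h]
    norm_num

section conv

variable {a : Wv → ℝ}

theorem sum_shift (h : Summable fun k => a k ^ 2) (m : Wv) :
    Summable fun k => a (m - k) ^ 2 :=
  (Equiv.subLeft m).summable_iff.mpr h

theorem tsum_shift (m : Wv) : ∑' k, a (m - k) ^ 2 = ∑' k, a k ^ 2 :=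
  (Equiv.subLeft m).tsum_eq fun k => a k ^ 2

theorem sum_conv (h0 : ∀ k, 0 ≤ a k) (h : Summable fun k => a k ^ 2) (m : Wv) :
    Summable fun k => a k * a (m - k) := by
  refine Summable.of_nonneg_of_le (fun k => mul_nonneg (h0 _) (h0 _)) (fun k => ?_)
    ((h.add (sum_shift h m)).div_const 2)
  show a k * a (m - k) ≤ (a k ^ 2 + a (m - k) ^ 2) / 2
  nlinarith [sq_nonneg (a k - a (m - k))]

theorem tsum_conv (h0 : ∀ k, 0 ≤ a k) (h : Summable fun k => a k ^ 2) (m : Wv) :
    ∑' k, a k * a (m - k) ≤ ∑' k, a k ^ 2 := by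
  have h1 : ∑' k, a k * a (m - k) ≤ ∑' k, (a k ^ 2 + a (m - k) ^ 2) / 2 :=
    (sum_conv h0 h m).tsum_le_tsum (fun k => by nlinarith [sq_nonneg (a k - a (m - k))])
      ((h.add (sum_shift h m)).div_const 2)
  refine h1.trans (le_of_eq ?_)
  rw [tsum_div_const, h.tsum_add (sum_shift h m), tsum_shift]
  ring

end conv

/-- the terms -/
noncomputable def hh (u : Fld) (k m : Wv) : ℂ :=
  dt (u k) (m - k) * ∑ j, (starRingEnd ℂ) (u m j) * u (m - k) j

theorem norm_hh_le {u : Fld} (hu : Adm u) (k m : Wv) :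
    ‖hh u k m‖ ≤ Real.sqrt (nsq m) * am u m * (am u k * am u (m - k)) := by
  unfold hh
  rw [norm_mul, dt_sub, hu.div k, sub_zero]
  have h1 := norm_dt_le (u k) m
  have h2 := norm_inner_le (u m) (u (m - k))
  calc ‖dt (u k) m‖ * ‖∑ j, (starRingEnd ℂ) (u m j) * u (m - k) j‖
      ≤ (am u k * Real.sqrt (nsq m)) * (am u m * am u (m - k)) :=
        mul_le_mul h1 h2 (norm_nonneg _)
          (mul_nonneg (am_nonneg u k) (Real.sqrt_nonneg _))
    _ = _ := by ring

theorem summable_sq {u : Fld} (hs : Summable (msq u)) : Summable fun k => am u k ^ 2 := by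
  simpa only [am_sq] using hs

theorem summable_hh {u : Fld} (hu : Adm u) (hs : Summable (msq u)) (m : Wv) :
    Summable fun k => hh u k m := by
  refine Summable.of_norm_bounded
    ((sum_conv (am_nonneg u) (summable_sq hs) m).mul_left (Real.sqrt (nsq m) * am u m)) ?_
  exact fun k => norm_hh_le hu k m

theorem summable_term {u : Fld} (hu : Adm u) (hs : Summable (msq u)) (m : Wv) (j : Fin 3) :
    Summable fun k => dt (u k) (m - k) * u (m - k) j := by
  refine Summable.of_norm_bounded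
    ((sum_conv (am_nonneg u) (summable_sq hs) m).mul_left (Real.sqrt (nsq m))) ?_
  intro k
  rw [norm_mul, dt_sub, hu.div k, sub_zero]
  have h1 := norm_dt_le (u k) m
  have h2 : ‖u (m - k) j‖ ≤ am u (m - k) := by
    refine Real.le_sqrt_of_sq_le ?_
    exact Finset.single_le_sum (f := fun i => ‖u (m - k) i‖ ^ 2) (fun _ _ => sq_nonneg _)
      (Finset.mem_univ j)
  calc ‖dt (u k) m‖ * ‖u (m - k) j‖ ≤ (am u k * Real.sqrt (nsq m)) * am u (m - k) :=
        mul_le_mul h1 h2 (norm_nonneg _)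
          (mul_nonneg (am_nonneg u k) (Real.sqrt_nonneg _))
    _ = _ := by ring

theorem sum_conv_eq {u : Fld} (hu : Adm u) (hs : Summable (msq u)) (m : Wv) :
    ∑ j, (starRingEnd ℂ) (u m j) * conv u m j = ∑' k, hh u k m := by
  unfold conv hh
  simp_rw [← tsum_mul_left]
  rw [← Summable.tsum_finsetSum (fun j _ => (summable_term hu hs m j).mul_left _)]
  refine tsum_congr fun k => ?_
  rw [Finset.mul_sum]
  refine Finset.sum_congr rfl fun j _ => ?_
  ring

/-- the antisymmetry of the interactions inside the ball -/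
theorem cancel {u : Fld} (hu : Adm u) (N : ℕ) (k : Wv) :
    open Classical in
    ∑ m ∈ (bl N).filter (fun m => m - k ∈ bl N), hh u k m = 0 := by
  classical
  set S := (bl N).filter (fun m => m - k ∈ bl N) with hS
  have key : ∑ m ∈ S, hh u k m = ∑ m ∈ S, -hh u k m := by
    refine Finset.sum_nbij' (fun m => k - m) (fun m => k - m) ?_ ?_ ?_ ?_ ?_
    · intro m hm
      rw [hS, Finset.mem_filter] at hm ⊢
      refine ⟨?_, ?_⟩
      · rw [← neg_mem_bl, neg_sub]
        exact hm.2
      · have : k - m - k = -m := by abel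
        rw [this, neg_mem_bl]
        exact hm.1
    · intro m hm
      rw [hS, Finset.mem_filter] at hm ⊢
      refine ⟨?_, ?_⟩
      · rw [← neg_mem_bl, neg_sub]
        exact hm.2
      · have : k - m - k = -m := by abel
        rw [this, neg_mem_bl]
        exact hm.1
    · intro m _
      simp
    · intro m _
      simp
    · intro m _
      unfold hh
      have e1 : k - m - k = -m := by abel
      have e2 : ∀ j, (starRingEnd ℂ) (u (k - m) j) = u (m - k) j := by
        intro j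
        rw [← hu.real, neg_sub]
      rw [e1]
      simp_rw [e2, hu.real m]
      rw [dt_neg, dt_sub, hu.div k, sub_zero]
      have e3 : ∑ j, u (m - k) j * (starRingEnd ℂ) (u m j)
          = ∑ j, (starRingEnd ℂ) (u m j) * u (m - k) j :=
        Finset.sum_congr rfl fun j _ => mul_comm _ _
      rw [e3]
      ring
  rw [Finset.sum_neg_distrib] at key
  exact self_eq_neg.mp key

theorem sqrt_nsq_le_of_mem {N : ℕ} {m : Wv} (hm : m ∈ bl N) : Real.sqrt (nsq m) ≤ N := by
  rw [Real.sqrt_le_left (Nat.cast_nonneg N)]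
  exact mem_bl.mp hm

theorem sqrt_nsq_add (a b : Wv) : Real.sqrt (nsq (a + b)) ≤ Real.sqrt (nsq a) + Real.sqrt (nsq b) := by
  have h := norm_add_le (WithLp.toLp 2 (fun i => (a i : ℝ)) : EuclideanSpace ℝ (Fin 3))
    (WithLp.toLp 2 (fun i => (b i : ℝ)))
  rw [EuclideanSpace.norm_eq, EuclideanSpace.norm_eq, EuclideanSpace.norm_eq] at h
  simp only [Real.norm_eq_abs, sq_abs] at h
  unfold nsq
  refine le_trans (le_of_eq ?_) h
  congr 1
  refine Finset.sum_congr rfl fun i _ => ?_
  rw [Pi.add_apply]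
  push_cast
  rfl

/-- the terms which are left -/
theorem term_bound {u : Fld} (hu : Adm u) (N : ℕ) {k m : Wv} (hm : m ∈ bl (2 * N))
    (hmk : m - k ∉ bl (2 * N)) :
    ‖hh u k m‖ ≤ 2 * N * (am u m * (bo u N k * bo u N (m - k))
      + ((bl (2 * N) : Finset Wv) : Set Wv).indicator (am u) k * (bo u N m * bo u N (m - k))) := by
  have hN : (0 : ℝ) ≤ N := Nat.cast_nonneg N
  have h1 := norm_hh_le hu k m
  have h2 : Real.sqrt (nsq m) ≤ 2 * N := by
    have := sqrt_nsq_le_of_mem hm
    push_cast at this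
    exact this
  have h3 : (2 * (N : ℝ)) ^ 2 < nsq (m - k) := by
    by_contra hcon
    push Not at hcon
    exact hmk (mem_bl.mpr (by push_cast; exact hcon))
  have h3' : (N : ℝ) ^ 2 < nsq (m - k) := by nlinarith
  have e1 : bo u N (m - k) = am u (m - k) := indicator_of_mem (show _ ∈ {k : Wv | (N : ℝ) ^ 2 < nsq k} from h3') _
  rw [e1]
  have a1 := am_nonneg u m
  have a2 := am_nonneg u k
  have a3 := am_nonneg u (m - k)
  have a4 := bo_nonneg u N m
  have a5 := bo_nonneg u N k
  have a6 : 0 ≤ ((bl (2 * N) : Finset Wv) : Set Wv).indicator (am u) k :=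
    indicator_nonneg (fun _ _ => am_nonneg _ _) k
  by_cases hk : (N : ℝ) ^ 2 < nsq k
  · have e2 : bo u N k = am u k := indicator_of_mem (show _ ∈ {k : Wv | (N : ℝ) ^ 2 < nsq k} from hk) _
    rw [e2]
    calc ‖hh u k m‖ ≤ Real.sqrt (nsq m) * am u m * (am u k * am u (m - k)) := h1
      _ ≤ 2 * N * am u m * (am u k * am u (m - k)) := by gcongr
      _ = 2 * N * (am u m * (am u k * am u (m - k)) + 0) := by ring
      _ ≤ _ := by
        gcongr
        positivity
  · have hk' : k ∈ bl (2 * N) := by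
      rw [mem_bl]
      push_cast
      push Not at hk
      nlinarith
    have hm' : (N : ℝ) ^ 2 < nsq m := by
      by_contra hcon
      push Not at hk hcon
      have b1 : Real.sqrt (nsq k) ≤ N := by
        rw [Real.sqrt_le_left hN]
        exact hk
      have b2 : Real.sqrt (nsq m) ≤ N := by
        rw [Real.sqrt_le_left hN]
        exact hcon
      have b3 := sqrt_nsq_add m (-k)
      rw [nsq_neg, ← sub_eq_add_neg] at b3
      have b4 : 2 * (N : ℝ) < Real.sqrt (nsq (m - k)) := by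
        rw [Real.lt_sqrt (by positivity)]
        exact h3
      linarith
    have e2 : bo u N m = am u m := indicator_of_mem (show _ ∈ {k : Wv | (N : ℝ) ^ 2 < nsq k} from hm') _
    have e3 : ((bl (2 * N) : Finset Wv) : Set Wv).indicator (am u) k = am u k :=
      indicator_of_mem (show k ∈ ((bl (2 * N) : Finset Wv) : Set Wv) from hk') _
    rw [e2, e3]
    calc ‖hh u k m‖ ≤ Real.sqrt (nsq m) * am u m * (am u k * am u (m - k)) := h1
      _ ≤ 2 * N * am u m * (am u k * am u (m - k)) := by gcongr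
      _ = 2 * N * (0 + am u k * (am u m * am u (m - k))) := by ring
      _ ≤ _ := by
        gcongr
        positivity

/-- **The bound of the flux.** -/
theorem flux_bound {u : Fld} (hu : Adm u) (hs : Summable (msq u)) (N : ℕ) :
    |flux u (2 * N)| ≤ 4 * N * (∑ k ∈ bl (2 * N), am u k) * tailE u N := by
  classical
  have hN : (0 : ℝ) ≤ N := Nat.cast_nonneg N
  set S := bl (2 * N) with hS
  set A := ∑ k ∈ S, am u k with hA
  have hA0 : 0 ≤ A := Finset.sum_nonneg fun k _ => am_nonneg u k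
  have hbs : Summable fun k => bo u N k ^ 2 := by
    simp_rw [bo_sq]
    exact hs.indicator _
  have hP : ∑' k, bo u N k ^ 2 = tailE u N := by
    simp_rw [bo_sq]
    rfl
  have hP0 : 0 ≤ tailE u N := by
    rw [← hP]
    exact tsum_nonneg fun k => sq_nonneg _
  -- the flux as a sum over `k`
  have e1 : ∑ m ∈ S, ∑ j, (starRingEnd ℂ) (u m j) * conv u m j
      = ∑' k, ∑ m ∈ S, (if m - k ∈ S then 0 else hh u k m) := by
    calc ∑ m ∈ S, ∑ j, (starRingEnd ℂ) (u m j) * conv u m j = ∑ m ∈ S, ∑' k, hh u k m :=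
          Finset.sum_congr rfl fun m _ => sum_conv_eq hu hs m
      _ = ∑' k, ∑ m ∈ S, hh u k m :=
          (Summable.tsum_finsetSum fun m _ => summable_hh hu hs m).symm
      _ = _ := by
          refine tsum_congr fun k => ?_
          have h1 := cancel hu (2 * N) k
          rw [Finset.sum_filter] at h1
          have h2 : ∑ m ∈ S, hh u k m = ∑ m ∈ S, (if m - k ∈ S then hh u k m else 0)
              + ∑ m ∈ S, (if m - k ∈ S then 0 else hh u k m) := by
            rw [← Finset.sum_add_distrib]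
            refine Finset.sum_congr rfl fun m _ => ?_
            split_ifs <;> simp
          rw [h2]
          rw [show ∑ m ∈ S, (if m - k ∈ S then hh u k m else 0) = 0 from h1, zero_add]
  -- the bound of the terms
  let R : Wv → Wv → ℝ := fun k m => 2 * N * (am u m * (bo u N k * bo u N (m - k)))
  let R' : Wv → Wv → ℝ := fun k m =>
    2 * N * ((S : Set Wv).indicator (am u) k * (bo u N m * bo u N (m - k)))
  have hR0 : ∀ k m, 0 ≤ R k m := fun k m => by
    have := am_nonneg u m
    have := bo_nonneg u N k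
    have := bo_nonneg u N (m - k)
    positivity
  have hR0' : ∀ k m, 0 ≤ R' k m := fun k m => by
    have : 0 ≤ (S : Set Wv).indicator (am u) k := indicator_nonneg (fun _ _ => am_nonneg _ _) k
    have := bo_nonneg u N m
    have := bo_nonneg u N (m - k)
    positivity
  have hterm : ∀ k, ‖∑ m ∈ S, (if m - k ∈ S then (0 : ℂ) else hh u k m)‖
      ≤ (∑ m ∈ S, R k m) + ∑ m ∈ S, R' k m := by
    intro k
    rw [← Finset.sum_add_distrib]
    refine (norm_sum_le _ _).trans (Finset.sum_le_sum fun m hm => ?_)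
    split_ifs with h
    · rw [norm_zero]
      exact add_nonneg (hR0 k m) (hR0' k m)
    · refine (term_bound hu N hm h).trans (le_of_eq ?_)
      simp only [R, R', hS]
      ring
  have hRs : ∀ m, Summable fun k => R k m := fun m =>
    ((sum_conv (bo_nonneg u N) hbs m).mul_left (am u m)).mul_left (2 * (N : ℝ))
  have hRt : ∀ m, ∑' k, R k m ≤ 2 * N * (am u m * tailE u N) := by
    intro m
    simp only [R]
    rw [tsum_mul_left, tsum_mul_left]
    have h1 := tsum_conv (bo_nonneg u N) hbs m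
    rw [hP] at h1
    have := am_nonneg u m
    gcongr
  have hR's : ∀ m, Summable fun k => R' k m := by
    intro m
    refine summable_of_hasFiniteSupport ((S.finite_toSet).subset fun k hk => ?_)
    by_contra hcon
    refine hk ?_
    simp only [R']
    rw [indicator_of_notMem hcon]
    ring
  have hsum1 : Summable fun k => ∑ m ∈ S, R k m := summable_sum fun m _ => hRs m
  have hsum2 : Summable fun k => ∑ m ∈ S, R' k m := summable_sum fun m _ => hR's m
  have ht1 : ∑' k, ∑ m ∈ S, R k m ≤ 2 * N * (A * tailE u N) := by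
    rw [Summable.tsum_finsetSum fun m _ => hRs m]
    refine (Finset.sum_le_sum fun m _ => hRt m).trans (le_of_eq ?_)
    rw [hA, ← Finset.mul_sum, ← Finset.sum_mul]
  have hs' : ∀ k, ∑ m ∈ S, bo u N m * bo u N (m - k) ≤ tailE u N := by
    intro k
    have hsr : Summable fun m => bo u N (m - k) ^ 2 := (Equiv.subRight k).summable_iff.mpr hbs
    have h1 : Summable fun m => bo u N m * bo u N (m - k) := by
      refine Summable.of_nonneg_of_le (fun m => mul_nonneg (bo_nonneg _ _ _) (bo_nonneg _ _ _))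
        (fun m => ?_) ((hbs.add hsr).div_const 2)
      show bo u N m * bo u N (m - k) ≤ (bo u N m ^ 2 + bo u N (m - k) ^ 2) / 2
      nlinarith [sq_nonneg (bo u N m - bo u N (m - k))]
    have h2 : ∑' m, bo u N m * bo u N (m - k)
        ≤ ∑' m, (bo u N m ^ 2 + bo u N (m - k) ^ 2) / 2 :=
      h1.tsum_le_tsum (fun m => by nlinarith [sq_nonneg (bo u N m - bo u N (m - k))])
        ((hbs.add hsr).div_const 2)
    have h3 : ∑' m, bo u N (m - k) ^ 2 = ∑' m, bo u N m ^ 2 :=
      (Equiv.subRight k).tsum_eq fun m => bo u N m ^ 2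
    rw [tsum_div_const, hbs.tsum_add hsr, h3, hP] at h2
    have h4 : ∑ m ∈ S, bo u N m * bo u N (m - k) ≤ ∑' m, bo u N m * bo u N (m - k) :=
      h1.sum_le_tsum S fun m _ => mul_nonneg (bo_nonneg _ _ _) (bo_nonneg _ _ _)
    linarith
  have ht2 : ∑' k, ∑ m ∈ S, R' k m ≤ 2 * N * (A * tailE u N) := by
    have h1 : ∑' k, ∑ m ∈ S, R' k m = ∑ k ∈ S, ∑ m ∈ S, R' k m := by
      refine tsum_eq_sum fun k hk => ?_
      refine Finset.sum_eq_zero fun m _ => ?_
      simp only [R']
      rw [indicator_of_notMem (show k ∉ (S : Set Wv) from hk)]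
      ring
    rw [h1]
    calc ∑ k ∈ S, ∑ m ∈ S, R' k m ≤ ∑ k ∈ S, 2 * N * (am u k * tailE u N) := by
          refine Finset.sum_le_sum fun k hk => ?_
          simp only [R']
          rw [indicator_of_mem (show k ∈ (S : Set Wv) from hk), ← Finset.mul_sum, ← Finset.mul_sum]
          have := hs' k
          have := am_nonneg u k
          gcongr
      _ = _ := by rw [hA, ← Finset.mul_sum, ← Finset.sum_mul]
  unfold flux
  rw [← hS, e1]
  calc |(∑' k, ∑ m ∈ S, (if m - k ∈ S then (0 : ℂ) else hh u k m)).im|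
      ≤ ‖∑' k, ∑ m ∈ S, (if m - k ∈ S then (0 : ℂ) else hh u k m)‖ := Complex.abs_im_le_norm _
    _ ≤ ∑' k, ((∑ m ∈ S, R k m) + ∑ m ∈ S, R' k m) :=
        tsum_of_norm_bounded (hsum1.add hsum2).hasSum hterm
    _ = (∑' k, ∑ m ∈ S, R k m) + ∑' k, ∑ m ∈ S, R' k m := hsum1.tsum_add hsum2
    _ ≤ 2 * N * (A * tailE u N) + 2 * N * (A * tailE u N) := add_le_add ht1 ht2
    _ = _ := by ring

end Pool.Agent.Helper30.TB
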