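import Mathlib
import Pool.Agent.Helper30.TB.Flux

/-!
Series of functions of time.
-/

set_option autoImplicit false

namespace Pool.Agent.Helper30.TB

open MeasureTheory Set Filter Topology
open scoped ENNReal

theorem bl_mono : Monotone bl := by
  intro a b h k hk
  rw [mem_bl] at hk ⊢
  have : (a : ℝ) ≤ b := by exact_mod_cast h
  have h0 : (0 : ℝ) ≤ a := Nat.cast_nonneg a
  nlinarith

theorem exists_mem_bl (k : Wv) : ∃ N : ℕ, k ∈ bl N := by
  obtain ⟨N, hN⟩ := exists_nat_ge (Real.sqrt (nsq k))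
  refine ⟨N, ?_⟩
  rw [mem_bl]
  exact (Real.sqrt_le_left (Nat.cast_nonneg N)).mp hN

theorem tendsto_bl : Tendsto bl atTop atTop :=
  tendsto_atTop_finset_of_monotone bl_mono exists_mem_bl

section series

variable {F : Wv → ℝ → ℝ} {T : ℝ}

theorem on_Ioc (hT : 0 ≤ T) (hi : ∀ k, IntervalIntegrable (F k) volume 0 T) (k : Wv) :
    IntegrableOn (F k) (Ioc 0 T) volume := by
  rw [← intervalIntegrable_iff_integrableOn_Ioc_of_le hT]
  exact hi k

theorem summable_on (hT : 0 ≤ T) (hi : ∀ k, IntervalIntegrable (F k) volume 0 T)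
    (hs : Summable fun k => ∫ τ in (0 : ℝ)..T, |F k τ|) {s t : ℝ} (h0 : 0 ≤ s) (ht : t ≤ T) :
    Summable fun k => ∫ τ in Ioc s t, ‖F k τ‖ := by
  refine Summable.of_nonneg_of_le (fun k => integral_nonneg fun _ => norm_nonneg _) (fun k => ?_) hs
  rw [intervalIntegral.integral_of_le hT]
  exact setIntegral_mono_set (on_Ioc hT hi k).norm
    (Eventually.of_forall fun _ => abs_nonneg _)
    (Ioc_subset_Ioc h0 ht).eventuallyLE

theorem series (hT : 0 ≤ T) (hi : ∀ k, IntervalIntegrable (F k) volume 0 T)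
    (hs : Summable fun k => ∫ τ in (0 : ℝ)..T, |F k τ|) {s t : ℝ} (h0 : 0 ≤ s) (hst : s ≤ t)
    (ht : t ≤ T) :
    HasSum (fun k => ∫ τ in s..t, F k τ) (∫ τ in s..t, ∑' k, F k τ) := by
  simp_rw [intervalIntegral.integral_of_le hst]
  exact hasSum_integral_of_summable_integral_norm
    (fun k => (on_Ioc hT hi k).mono_set (Ioc_subset_Ioc h0 ht)) (summable_on hT hi hs h0 ht)

theorem lint_ne_top (hT : 0 ≤ T) (hi : ∀ k, IntervalIntegrable (F k) volume 0 T)
    (hs : Summable fun k => ∫ τ in (0 : ℝ)..T, |F k τ|) :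
    ∫⁻ τ in Ioc 0 T, ∑' k, ‖F k τ‖ₑ ≠ ⊤ := by
  rw [lintegral_tsum fun k => (on_Ioc hT hi k).aestronglyMeasurable.enorm]
  have h1 := summable_on hT hi hs le_rfl le_rfl
  have h2 : ∀ k, ∫⁻ τ in Ioc 0 T, ‖F k τ‖ₑ = ENNReal.ofReal (∫ τ in Ioc 0 T, ‖F k τ‖) := by
    intro k
    rw [ofReal_integral_norm_eq_lintegral_enorm (on_Ioc hT hi k)]
  simp_rw [h2]
  rw [← ENNReal.ofReal_tsum_of_nonneg (fun k => integral_nonneg fun _ => norm_nonneg _) h1]
  exact ENNReal.ofReal_ne_top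

theorem ae_summable (hT : 0 ≤ T) (hi : ∀ k, IntervalIntegrable (F k) volume 0 T)
    (hs : Summable fun k => ∫ τ in (0 : ℝ)..T, |F k τ|) :
    ∀ᵐ τ ∂(volume.restrict (Ioc 0 T)), Summable fun k => F k τ := by
  have h1 : AEMeasurable (fun τ => ∑' k, ‖F k τ‖ₑ) (volume.restrict (Ioc 0 T)) :=
    AEMeasurable.ennreal_tsum fun k => (on_Ioc hT hi k).aestronglyMeasurable.enorm
  filter_upwards [ae_lt_top' h1 (lint_ne_top hT hi hs)] with τ hτ
  have h2 : Summable fun k => ‖F k τ‖ := by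
    have h3 := ENNReal.summable_toReal hτ.ne
    refine h3.congr fun k => ?_
    rw [toReal_enorm]
  exact h2.of_norm

theorem series_int (hT : 0 ≤ T) (hi : ∀ k, IntervalIntegrable (F k) volume 0 T)
    (hs : Summable fun k => ∫ τ in (0 : ℝ)..T, |F k τ|) :
    IntervalIntegrable (fun τ => ∑' k, F k τ) volume 0 T := by
  rw [intervalIntegrable_iff_integrableOn_Ioc_of_le hT]
  have hm : AEStronglyMeasurable (fun τ => ∑' k, F k τ) (volume.restrict (Ioc 0 T)) := by
    refine aestronglyMeasurable_of_tendsto_ae atTop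
      (f := fun (N : ℕ) τ => ∑ k ∈ bl N, F k τ) (fun N => ?_) ?_
    · exact Finset.aestronglyMeasurable_fun_sum _ fun k _ =>
        (on_Ioc hT hi k).aestronglyMeasurable
    · filter_upwards [ae_summable hT hi hs] with τ hτ
      exact hτ.hasSum.comp tendsto_bl
  refine ⟨hm, ?_⟩
  refine lt_of_le_of_lt (lintegral_mono fun τ => ?_) (lint_ne_top hT hi hs).lt_top
  exact enorm_tsum_le_tsum_enorm

end series

end Pool.Agent.Helper30.TB
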