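import Mathlib
import Pool.Agent.Helper30.TB.Time
import Pool.Graph.R_pool_sql_team_seeded_63374d34.N983.WK.EEF
import Pool.Graph.R_pool_sql_team_seeded_63374d34.N983.WK.CVB
import Pool.Graph.R_pool_sql_team_seeded_63374d34.N983.WK.MSB
import Pool.Graph.R_pool_sql_team_seeded_63374d34.N983.WK.SQ

/-!
The energy balance of the part of a weak solution in a ball of the Fourier space.
-/

set_option autoImplicit false

namespace Pool.Agent.Helper30.TB

open MeasureTheory Set Filter Topology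
open scoped ENNReal

open Pool.Agent.N983 in
/-- the coefficients of the triads are one -/
theorem arr_one : RT.Arr (fun _ _ _ => (1 : ℝ)) :=
  ⟨fun _ _ _ => rfl, fun _ _ _ => rfl, fun _ _ _ => rfl, fun _ _ _ => by simp⟩

theorem conv_bridge (u : Fld) (m : Wv) :
    Pool.Agent.N983.RT.conv (fun _ _ _ => (1 : ℝ)) u m = conv u m := by
  funext j
  unfold Pool.Agent.N983.RT.conv conv
  refine tsum_congr fun k => ?_
  rw [Complex.ofReal_one, one_mul]
  rfl

theorem cv_bridge (u : Fld) (m : Wv) :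
    Pool.Agent.N983.WK.cv (fun _ _ _ => (1 : ℝ)) u u m = conv u m := conv_bridge u m

theorem En_bridge (n : ℕ) (u : Fld) :
    Pool.Agent.N983.RT.En 0 n u = ∑ k ∈ Pool.Agent.N983.RT.cub n, msq u k := by
  unfold Pool.Agent.N983.RT.En
  simp only [pow_zero, one_mul]
  rfl

theorem Er_bridge (n : ℕ) (u : Fld) :
    Pool.Agent.N983.RT.Er 1 n u = ∑ k ∈ Pool.Agent.N983.RT.cub n, nsq k * msq u k := by
  unfold Pool.Agent.N983.RT.Er
  simp only [Real.rpow_one]
  rfl

theorem adm_bridge {u : Fld} (h : Adm u) : Pool.Agent.N983.RT.Adm u := ⟨h.zero, h.div, h.real⟩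

theorem rhs_bridge (ν : ℝ) (u : Fld) (m : Wv) (j : Fin 3) :
    Pool.Agent.N983.RT.rhs (fun _ _ _ => (1 : ℝ)) ν 1 u m j
      = -((ν * nsq m : ℝ) : ℂ) * u m j - Complex.I * prj m (conv u m) j := by
  unfold Pool.Agent.N983.RT.rhs
  rw [conv_bridge, Real.rpow_one]
  rfl

theorem IsWeakSolution.toF {ν T : ℝ} {u f : ℝ → Fld} (h : IsWeakSolution ν T u f) :
    Pool.Agent.N983.WK.IsWeakF (fun _ _ _ => (1 : ℝ)) ν 1 T f u where
  adm := fun t ht => adm_bridge (h.adm t ht)
  cont := h.cont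
  energy := by
    obtain ⟨C, hC⟩ := h.energy
    exact ⟨C, fun t ht n => by rw [En_bridge]; exact hC t ht _⟩
  diss := by
    obtain ⟨C, hC⟩ := h.diss
    exact ⟨C, fun n => by simp_rw [Er_bridge]; exact hC _⟩
  eqn := fun m hm j t ht => by
    simp_rw [rhs_bridge]
    exact h.eqn m hm j t ht

theorem IsWeakSolution.toForce {ν T : ℝ} {u f : ℝ → Fld} (h : IsWeakSolution ν T u f) :
    Pool.Agent.N983.WK.IsForce T f where
  adm := fun t ht => adm_bridge (h.fadm t ht)
  meas := h.fmeas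
  int := h.fint
  bdd := by
    obtain ⟨C, hC⟩ := h.fbdd
    exact ⟨C, fun n => by simp_rw [En_bridge]; exact hC _⟩

theorem bl_sub_cub (N : ℕ) : bl N ⊆ Pool.Agent.N983.RT.cub N := by
  classical
  unfold bl
  exact Finset.filter_subset _ _

/-- the power of the force in one mode -/
noncomputable def pw (f u : Fld) (k : Wv) : ℝ := ∑ j, ((starRingEnd ℂ) (u k j) * f k j).re

theorem bal {ν T : ℝ} (hT : 0 ≤ T) {u f : ℝ → Fld} (h : IsWeakSolution ν T u f) (N : ℕ) :
    IntervalIntegrable (fun s => flux (u s) N) volume 0 T ∧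
    ∀ t ∈ Icc 0 T, ∑ k ∈ bl N, msq (u t) k = ∑ k ∈ bl N, msq (u 0) k + ∫ s in (0 : ℝ)..t,
      (-2 * ν * ∑ k ∈ bl N, nsq k * msq (u s) k + 2 * flux (u s) N
        + 2 * ∑ k ∈ bl N, pw (f s) (u s) k) := by
  classical
  have h1 := Pool.Agent.N983.WK.eef_bal Pool.Agent.N983.WK.t_CVB Pool.Agent.N983.WK.t_SQ
    Pool.Agent.N983.WK.t_MSB arr_one hT h.toForce h.toF
    (fun k => if k ∈ bl N then 1 else 0) N
  have e : ∀ g : Wv → ℝ, ∑ m ∈ Pool.Agent.N983.RT.cub N, (if m ∈ bl N then (1 : ℝ) else 0) * g m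
      = ∑ m ∈ bl N, g m := by
    intro g
    have : ∀ m, (if m ∈ bl N then (1 : ℝ) else 0) * g m = if m ∈ bl N then g m else 0 := by
      intro m
      split_ifs <;> simp
    simp_rw [this]
    rw [← Finset.sum_filter]
    congr 1
    rw [Finset.filter_mem_eq_inter]
    exact Finset.inter_eq_right.mpr (bl_sub_cub N)
  have e' : ∀ g : Wv → ℂ, ∑ m ∈ Pool.Agent.N983.RT.cub N,
      ((if m ∈ bl N then (1 : ℝ) else 0 : ℝ) : ℂ) * g m = ∑ m ∈ bl N, g m := by
    intro g
    have : ∀ m, ((if m ∈ bl N then (1 : ℝ) else 0 : ℝ) : ℂ) * g m = if m ∈ bl N then g m else 0 := by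
      intro m
      split_ifs <;> simp
    simp_rw [this]
    rw [← Finset.sum_filter]
    congr 1
    rw [Finset.filter_mem_eq_inter]
    exact Finset.inter_eq_right.mpr (bl_sub_cub N)
  simp only [e, e', cv_bridge, Real.rpow_one] at h1
  exact h1

end Pool.Agent.Helper30.TB
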