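import Mathlib
import Pool.Agent.Helper30.TB.Bal

/-!
The energy defect as a limit of fluxes.
-/

set_option autoImplicit false

namespace Pool.Agent.Helper30.TB

open MeasureTheory Set Filter Topology
open scoped ENNReal

variable {ν T : ℝ} {u f : ℝ → Fld}

theorem summable_msq (h : IsWeakSolution ν T u f) {t : ℝ} (ht : t ∈ Icc 0 T) :
    Summable (msq (u t)) := by
  obtain ⟨C, hC⟩ := h.energy
  exact summable_of_sum_le (msq_nonneg _) (hC t ht)

theorem exists_bound (h : IsWeakSolution ν T u f) :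
    ∃ C : ℝ, 0 ≤ C ∧ ∀ t ∈ Icc 0 T, nrm2 (u t) ≤ C := by
  obtain ⟨C, hC⟩ := h.energy
  refine ⟨max C 0, le_max_right _ _, fun t ht => ?_⟩
  exact ((summable_msq h ht).tsum_le_of_sum_le (hC t ht)).trans (le_max_left _ _)

theorem nrm2_nonneg (v : Fld) : 0 ≤ nrm2 v := tsum_nonneg (msq_nonneg v)

theorem msq_cont (h : IsWeakSolution ν T u f) (k : Wv) :
    ContinuousOn (fun τ => msq (u τ) k) (Icc 0 T) :=
  continuousOn_finsetSum _ fun j _ => (h.cont k j).norm.pow 2

theorem msq_ii (hT : 0 ≤ T) (h : IsWeakSolution ν T u f) (k : Wv) :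
    IntervalIntegrable (fun τ => msq (u τ) k) volume 0 T :=
  (msq_cont h k).intervalIntegrable_of_Icc hT

theorem sub_ii {g : ℝ → ℝ} (hg : IntervalIntegrable g volume 0 T) {s t : ℝ} (h0 : 0 ≤ s)
    (hst : s ≤ t) (ht : t ≤ T) : IntervalIntegrable g volume s t := by
  refine hg.mono_set ?_
  rw [uIcc_of_le hst, uIcc_of_le (h0.trans (hst.trans ht))]
  exact Icc_subset_Icc h0 ht

/-- summability of the time integrals of nonnegative functions -/
theorem summable_of_bdd {F : Wv → ℝ → ℝ} (hT : 0 ≤ T)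
    (hi : ∀ k, IntervalIntegrable (F k) volume 0 T) (h0 : ∀ k τ, 0 ≤ F k τ) {C : ℝ}
    (hC : ∀ S : Finset Wv, ∫ τ in (0 : ℝ)..T, ∑ k ∈ S, F k τ ≤ C) :
    Summable fun k => ∫ τ in (0 : ℝ)..T, |F k τ| := by
  have e : ∀ k, ∫ τ in (0 : ℝ)..T, |F k τ| = ∫ τ in (0 : ℝ)..T, F k τ := by
    intro k
    congr 1
    funext τ
    exact abs_of_nonneg (h0 k τ)
  simp_rw [e]
  refine summable_of_sum_le (c := C) (fun k =>
    intervalIntegral.integral_nonneg hT fun τ _ => h0 k τ) fun S => ?_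
  rw [← intervalIntegral.integral_finsetSum fun k _ => hi k]
  exact hC S

theorem sum_msq (hT : 0 ≤ T) (h : IsWeakSolution ν T u f) :
    Summable fun k => ∫ τ in (0 : ℝ)..T, |msq (u τ) k| := by
  obtain ⟨C, hC⟩ := h.energy
  refine summable_of_bdd hT (msq_ii hT h) (fun k τ => msq_nonneg _ _) (C := C * T) fun S => ?_
  calc ∫ τ in (0 : ℝ)..T, ∑ k ∈ S, msq (u τ) k ≤ ∫ τ in (0 : ℝ)..T, C := by
        refine intervalIntegral.integral_mono_on hT ?_ intervalIntegrable_const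
          fun τ hτ => hC τ hτ S
        exact (continuousOn_finsetSum _ fun k _ => msq_cont h k).intervalIntegrable_of_Icc hT
    _ = C * T := by rw [intervalIntegral.integral_const, sub_zero, smul_eq_mul, mul_comm]

theorem ens_ii (hT : 0 ≤ T) (h : IsWeakSolution ν T u f) (k : Wv) :
    IntervalIntegrable (fun τ => nsq k * msq (u τ) k) volume 0 T := (msq_ii hT h k).const_mul _

theorem sum_ens (hT : 0 ≤ T) (h : IsWeakSolution ν T u f) :
    Summable fun k => ∫ τ in (0 : ℝ)..T, |nsq k * msq (u τ) k| := by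
  obtain ⟨C, hC⟩ := h.diss
  exact summable_of_bdd hT (ens_ii hT h)
    (fun k τ => mul_nonneg (nsq_nonneg _) (msq_nonneg _ _)) hC

theorem pw_ii (hT : 0 ≤ T) (h : IsWeakSolution ν T u f) (k : Wv) :
    IntervalIntegrable (fun τ => pw (f τ) (u τ) k) volume 0 T :=
  Pool.Agent.N983.WK.bal_sumr Finset.univ
    (fun (j : Fin 3) s => ((starRingEnd ℂ) (u s k j) * f s k j).re) 0 T fun j _ =>
      Pool.Agent.N983.WK.eef_pow hT h.toForce h.toF k j

theorem msqf_ii (h : IsWeakSolution ν T u f) (k : Wv) :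
    IntervalIntegrable (fun τ => msq (f τ) k) volume 0 T :=
  Pool.Agent.N983.WK.bal_sumr Finset.univ (fun (j : Fin 3) s => ‖f s k j‖ ^ 2) 0 T
    fun j _ => h.fint k j

theorem sum_msqf (hT : 0 ≤ T) (h : IsWeakSolution ν T u f) :
    Summable fun k => ∫ τ in (0 : ℝ)..T, |msq (f τ) k| := by
  obtain ⟨C, hC⟩ := h.fbdd
  exact summable_of_bdd hT (msqf_ii h) (fun k τ => msq_nonneg _ _) hC

theorem sum_pw (hT : 0 ≤ T) (h : IsWeakSolution ν T u f) :
    Summable fun k => ∫ τ in (0 : ℝ)..T, |pw (f τ) (u τ) k| := by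
  refine Summable.of_nonneg_of_le (fun k => intervalIntegral.integral_nonneg hT fun τ _ =>
    abs_nonneg _) (fun k => ?_) ((sum_msq hT h).add (sum_msqf hT h))
  rw [← intervalIntegral.integral_add (msq_ii hT h k).abs (msqf_ii h k).abs]
  refine intervalIntegral.integral_mono_on hT (pw_ii hT h k).abs
    ((msq_ii hT h k).abs.add (msqf_ii h k).abs) fun τ _ => ?_
  rw [abs_of_nonneg (msq_nonneg (u τ) k), abs_of_nonneg (msq_nonneg (f τ) k)]
  exact Pool.Agent.N983.WK.eef_abs _ _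

/-- the defect is the limit of the fluxes -/
theorem defect_lim (hT : 0 ≤ T) (h : IsWeakSolution ν T u f) {t : ℝ} (ht : t ∈ Icc 0 T) :
    Tendsto (fun N => -∫ τ in (0 : ℝ)..t, flux (u τ) N) atTop (𝓝 (energyDefect ν u f t)) := by
  have h0 : (0 : ℝ) ∈ Icc 0 T := ⟨le_rfl, hT⟩
  have a1 : Tendsto (fun N => ∑ k ∈ bl N, msq (u 0) k) atTop (𝓝 (nrm2 (u 0))) :=
    (summable_msq h h0).hasSum.comp tendsto_bl
  have a2 : Tendsto (fun N => ∑ k ∈ bl N, msq (u t) k) atTop (𝓝 (nrm2 (u t))) :=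
    (summable_msq h ht).hasSum.comp tendsto_bl
  have a3 : Tendsto (fun N => ∑ k ∈ bl N, ∫ τ in (0 : ℝ)..t, nsq k * msq (u τ) k) atTop
      (𝓝 (∫ τ in (0 : ℝ)..t, ens (u τ))) :=
    (series hT (ens_ii hT h) (sum_ens hT h) le_rfl ht.1 ht.2).comp tendsto_bl
  have a4 : Tendsto (fun N => ∑ k ∈ bl N, ∫ τ in (0 : ℝ)..t, pw (f τ) (u τ) k) atTop
      (𝓝 (∫ τ in (0 : ℝ)..t, work (f τ) (u τ))) :=
    (series hT (pw_ii hT h) (sum_pw hT h) le_rfl ht.1 ht.2).comp tendsto_bl
  have a5 := (((a1.div_const 2).add a4).sub (a2.div_const 2)).sub (a3.const_mul ν)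
  refine a5.congr fun N => ?_
  obtain ⟨b1, b2⟩ := bal hT h N
  have b3 := b2 t ht
  have i1 : IntervalIntegrable (fun s => ∑ k ∈ bl N, nsq k * msq (u s) k) volume 0 t :=
    Pool.Agent.N983.WK.bal_sumr _ (fun k s => nsq k * msq (u s) k) 0 t fun k _ =>
      sub_ii (ens_ii hT h k) le_rfl ht.1 ht.2
  have i2 : IntervalIntegrable (fun s => ∑ k ∈ bl N, pw (f s) (u s) k) volume 0 t :=
    Pool.Agent.N983.WK.bal_sumr _ (fun k s => pw (f s) (u s) k) 0 t fun k _ =>
      sub_ii (pw_ii hT h k) le_rfl ht.1 ht.2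
  have i3 : IntervalIntegrable (fun s => flux (u s) N) volume 0 t := sub_ii b1 le_rfl ht.1 ht.2
  have e1 : ∫ s in (0 : ℝ)..t, (-2 * ν * ∑ k ∈ bl N, nsq k * msq (u s) k + 2 * flux (u s) N
        + 2 * ∑ k ∈ bl N, pw (f s) (u s) k)
      = -2 * ν * (∫ s in (0 : ℝ)..t, ∑ k ∈ bl N, nsq k * msq (u s) k)
        + 2 * (∫ s in (0 : ℝ)..t, flux (u s) N)
        + 2 * ∫ s in (0 : ℝ)..t, ∑ k ∈ bl N, pw (f s) (u s) k := by
    rw [← intervalIntegral.integral_const_mul, ← intervalIntegral.integral_const_mul,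
      ← intervalIntegral.integral_const_mul,
      ← intervalIntegral.integral_add (i1.const_mul _) (i3.const_mul _),
      ← intervalIntegral.integral_add ((i1.const_mul _).add (i3.const_mul _)) (i2.const_mul _)]
  rw [e1] at b3
  rw [← intervalIntegral.integral_finsetSum fun k _ => sub_ii (ens_ii hT h k) le_rfl ht.1 ht.2,
    ← intervalIntegral.integral_finsetSum fun k _ => sub_ii (pw_ii hT h k) le_rfl ht.1 ht.2]
  linarith

/-- the energy of the modes in a set -/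
noncomputable def gE (A : Set Wv) (v : Fld) : ℝ := ∑' k, A.indicator (msq v) k

theorem gE_nonneg (A : Set Wv) (v : Fld) : 0 ≤ gE A v :=
  tsum_nonneg fun k => indicator_nonneg (fun _ _ => msq_nonneg _ _) k

theorem gE_ii' (hT : 0 ≤ T) (h : IsWeakSolution ν T u f) (A : Set Wv) (k : Wv) :
    IntervalIntegrable (fun τ => A.indicator (msq (u τ)) k) volume 0 T := by
  by_cases hk : k ∈ A
  · simp_rw [indicator_of_mem hk]
    exact msq_ii hT h k
  · simp_rw [indicator_of_notMem hk]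
    exact intervalIntegrable_const

theorem sum_gE (hT : 0 ≤ T) (h : IsWeakSolution ν T u f) (A : Set Wv) :
    Summable fun k => ∫ τ in (0 : ℝ)..T, |A.indicator (msq (u τ)) k| := by
  refine Summable.of_nonneg_of_le (fun k => intervalIntegral.integral_nonneg hT fun τ _ =>
    abs_nonneg _) (fun k => ?_) (sum_msq hT h)
  refine intervalIntegral.integral_mono_on hT (gE_ii' hT h A k).abs (msq_ii hT h k).abs
    fun τ _ => ?_
  rw [abs_of_nonneg (indicator_nonneg (fun _ _ => msq_nonneg _ _) k),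
    abs_of_nonneg (msq_nonneg _ _)]
  exact indicator_le_self' (fun _ _ => msq_nonneg _ _) k

theorem gE_ii (hT : 0 ≤ T) (h : IsWeakSolution ν T u f) (A : Set Wv) :
    IntervalIntegrable (fun τ => gE A (u τ)) volume 0 T :=
  series_int hT (gE_ii' hT h A) (sum_gE hT h A)

theorem gE_add {v : Fld} (hv : Summable (msq v)) {A B : Set Wv} (hAB : Disjoint A B) :
    gE (A ∪ B) v = gE A v + gE B v := by
  unfold gE
  rw [← (hv.indicator A).tsum_add (hv.indicator B)]
  refine tsum_congr fun k => ?_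
  rw [indicator_union_of_disjoint hAB]

theorem gE_mono {v : Fld} (hv : Summable (msq v)) {A B : Set Wv} (hAB : A ⊆ B) :
    gE A v ≤ gE B v :=
  (hv.indicator A).tsum_le_tsum
    (fun k => indicator_le_indicator_of_subset hAB (fun _ => msq_nonneg _ _) k) (hv.indicator B)

/-- the wave vectors with `|k| > N^{5/4}` -/
def farS (N : ℕ) : Set Wv := {k : Wv | (N : ℝ) ^ (5 / 2 : ℝ) < nsq k}

/-- the wave vectors with `N < |k| ≤ N^{5/4}` -/
def bandS (N : ℕ) : Set Wv := {k : Wv | (N : ℝ) ^ 2 < nsq k ∧ nsq k ≤ (N : ℝ) ^ (5 / 2 : ℝ)}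

/-- the dissipation of the modes outside -/
noncomputable def zf (u : ℝ → Fld) (T : ℝ) (N : ℕ) : ℝ :=
  ∑' k, (farS N).indicator (fun k => ∫ τ in (0 : ℝ)..T, nsq k * msq (u τ) k) k

theorem zf_lim (hT : 0 ≤ T) (h : IsWeakSolution ν T u f) :
    Tendsto (fun N => zf u T N) atTop (𝓝 0) := by
  have hs : Summable fun k => ∫ τ in (0 : ℝ)..T, |nsq k * msq (u τ) k| := sum_ens hT h
  have h0 : ∀ k, 0 ≤ ∫ τ in (0 : ℝ)..T, nsq k * msq (u τ) k := fun k =>
    intervalIntegral.integral_nonneg hT fun τ _ => mul_nonneg (nsq_nonneg _) (msq_nonneg _ _)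
  have e : ∀ k, ∫ τ in (0 : ℝ)..T, |nsq k * msq (u τ) k|
      = ∫ τ in (0 : ℝ)..T, nsq k * msq (u τ) k := by
    intro k
    congr 1
    funext τ
    exact abs_of_nonneg (mul_nonneg (nsq_nonneg _) (msq_nonneg _ _))
  simp_rw [e] at hs
  have h1 := tendsto_tsum_of_dominated_convergence (𝓕 := atTop)
    (f := fun (N : ℕ) k => (farS N).indicator (fun k => ∫ τ in (0 : ℝ)..T, nsq k * msq (u τ) k) k)
    (g := fun _ => (0 : ℝ)) hs ?_ ?_
  · rw [tsum_zero] at h1
    exact h1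
  · intro k
    refine (tendsto_congr' ?_).mpr tendsto_const_nhds
    obtain ⟨N0, hN0⟩ := exists_nat_ge (max 1 (nsq k))
    filter_upwards [eventually_ge_atTop N0] with N hN
    refine indicator_of_notMem ?_ _
    unfold farS
    show ¬ (N : ℝ) ^ (5 / 2 : ℝ) < nsq k
    rw [not_lt]
    have h1 : max 1 (nsq k) ≤ (N : ℝ) := hN0.trans (by exact_mod_cast hN)
    have h2 : (1 : ℝ) ≤ N := (le_max_left _ _).trans h1
    calc nsq k ≤ (N : ℝ) := (le_max_right _ _).trans h1
      _ = (N : ℝ) ^ (1 : ℝ) := (Real.rpow_one _).symm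
      _ ≤ (N : ℝ) ^ (5 / 2 : ℝ) := Real.rpow_le_rpow_of_exponent_le h2 (by norm_num)
  · refine Eventually.of_forall fun N k => ?_
    rw [Real.norm_eq_abs, abs_of_nonneg (indicator_nonneg (fun k _ => h0 k) k)]
    exact indicator_le_self' (fun k _ => h0 k) k

theorem far_bound (hT : 0 ≤ T) (h : IsWeakSolution ν T u f) (N : ℕ) {s t : ℝ} (h0 : 0 ≤ s)
    (hst : s ≤ t) (ht : t ≤ T) :
    (N : ℝ) ^ (5 / 2 : ℝ) * ∫ τ in s..t, gE (farS N) (u τ) ≤ zf u T N := by
  have h1 := series hT (gE_ii' hT h (farS N)) (sum_gE hT h (farS N)) h0 hst ht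
  have hs : Summable fun k => ∫ τ in (0 : ℝ)..T, |nsq k * msq (u τ) k| := sum_ens hT h
  have e : ∀ k, ∫ τ in (0 : ℝ)..T, |nsq k * msq (u τ) k|
      = ∫ τ in (0 : ℝ)..T, nsq k * msq (u τ) k := by
    intro k
    congr 1
    funext τ
    exact abs_of_nonneg (mul_nonneg (nsq_nonneg _) (msq_nonneg _ _))
  simp_rw [e] at hs
  have h2 := h1.mul_left ((N : ℝ) ^ (5 / 2 : ℝ))
  show (N : ℝ) ^ (5 / 2 : ℝ) * ∫ τ in s..t, ∑' k, (farS N).indicator (msq (u τ)) k ≤ _
  rw [← h2.tsum_eq]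
  refine h2.summable.tsum_le_tsum (fun k => ?_) (hs.indicator _)
  by_cases hk : k ∈ farS N
  · simp_rw [indicator_of_mem hk]
    have h3 : ∫ τ in s..t, msq (u τ) k ≤ ∫ τ in (0 : ℝ)..T, msq (u τ) k := by
      refine intervalIntegral.integral_mono_interval h0 hst ht
        (Eventually.of_forall fun τ => msq_nonneg _ _) (msq_ii hT h k)
    rw [intervalIntegral.integral_const_mul]
    have h4 : 0 ≤ ∫ τ in s..t, msq (u τ) k :=
      intervalIntegral.integral_nonneg hst fun τ _ => msq_nonneg _ _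
    have h5 : (N : ℝ) ^ (5 / 2 : ℝ) ≤ nsq k := le_of_lt hk
    exact mul_le_mul h5 h3 h4 (nsq_nonneg _)
  · simp_rw [indicator_of_notMem hk]
    simp

end Pool.Agent.Helper30.TB
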