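import Mathlib
import Pool.Agent.Helper30.TB.Defect

/-!
Weak solutions as functions with values in a Hilbert space, and the asymptotics of the increments.
-/

set_option autoImplicit false

namespace Pool.Agent.Helper30.TB

open MeasureTheory Set Filter Topology
open scoped ENNReal

/-- the Hilbert space -/
abbrev Hs : Type := lp (fun _ : Wv => EuclideanSpace ℂ (Fin 3)) 2

theorem norm_toLp_sq (a : Fin 3 → ℂ) :
    ‖(WithLp.toLp 2 a : EuclideanSpace ℂ (Fin 3))‖ ^ 2 = ∑ j, ‖a j‖ ^ 2 :=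
  EuclideanSpace.norm_sq_eq _

theorem mem_emb {v : Fld} (hv : Summable (msq v)) :
    Memℓp (fun k => (WithLp.toLp 2 (v k) : EuclideanSpace ℂ (Fin 3))) 2 := by
  refine memℓp_gen ?_
  refine hv.congr fun k => ?_
  simp only [ENNReal.toReal_ofNat, Real.rpow_ofNat]
  exact (norm_toLp_sq (v k)).symm

open Classical in
/-- the embedding -/
noncomputable def em (v : Fld) : Hs :=
  if hv : Summable (msq v) then ⟨fun k => WithLp.toLp 2 (v k), mem_emb hv⟩ else 0

theorem em_sub_sq {v w : Fld} (hv : Summable (msq v)) (hw : Summable (msq w)) :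
    ‖em v - em w‖ ^ 2 = nrm2 (v - w) := by
  have h1 := lp.norm_rpow_eq_tsum (p := 2) (by norm_num) (em v - em w)
  simp only [ENNReal.toReal_ofNat, Real.rpow_ofNat] at h1
  rw [h1]
  unfold nrm2
  refine tsum_congr fun k => ?_
  have e : (em v - em w : Hs) k = WithLp.toLp 2 ((v - w) k) := by
    rw [lp.coeFn_sub, Pi.sub_apply]
    unfold em
    rw [dif_pos hv, dif_pos hw]
    rfl
  rw [e, norm_toLp_sq]
  rfl

theorem em_sub {v w : Fld} (hv : Summable (msq v)) (hw : Summable (msq w)) :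
    ‖em v - em w‖ = Real.sqrt (nrm2 (v - w)) := by
  rw [← em_sub_sq hv hw, Real.sqrt_sq (norm_nonneg _)]

/-- the inner product of one mode -/
noncomputable def ip (v w : Fld) (k : Wv) : ℝ := ∑ j, ((starRingEnd ℂ) (v k j) * w k j).re

theorem abs_ip_le (v w : Fld) (k : Wv) {η : ℝ} (hη : 0 < η) :
    |ip v w k| ≤ (η * msq v k + η⁻¹ * msq w k) / 2 := by
  unfold ip msq
  rw [Finset.mul_sum, Finset.mul_sum, ← Finset.sum_add_distrib, Finset.sum_div]
  refine (Finset.abs_sum_le_sum_abs _ _).trans (Finset.sum_le_sum fun j _ => ?_)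
  refine (Complex.abs_re_le_norm _).trans ?_
  rw [norm_mul, RCLike.norm_conj]
  have h1 : 0 ≤ (η * ‖v k j‖ - ‖w k j‖) ^ 2 * η⁻¹ := by positivity
  have h2 : (η * ‖v k j‖ - ‖w k j‖) ^ 2 * η⁻¹
      = η * ‖v k j‖ ^ 2 + η⁻¹ * ‖w k j‖ ^ 2 - 2 * (‖v k j‖ * ‖w k j‖) := by
    field_simp
    ring
  linarith

theorem summable_ip {v w : Fld} (hv : Summable (msq v)) (hw : Summable (msq w)) :
    Summable (ip v w) := by
  refine Summable.of_norm_bounded (((hv.mul_left 1).add (hw.mul_left (1 : ℝ)⁻¹)).div_const 2) ?_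
  exact fun k => abs_ip_le v w k one_pos

theorem ip_self (v : Fld) (k : Wv) : ip v v k = msq v k := by
  unfold ip msq
  refine Finset.sum_congr rfl fun j _ => ?_
  rw [← Complex.normSq_eq_norm_sq, mul_comm, Complex.mul_conj, Complex.ofReal_re]

theorem msq_sub (v w : Fld) (k : Wv) : msq (v - w) k = msq v k + msq w k - 2 * ip v w k := by
  unfold msq ip
  rw [Finset.mul_sum, ← Finset.sum_add_distrib, ← Finset.sum_sub_distrib]
  refine Finset.sum_congr rfl fun j _ => ?_
  have e : (v - w) k j = v k j - w k j := rfl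
  rw [e, ← Complex.normSq_eq_norm_sq, ← Complex.normSq_eq_norm_sq, ← Complex.normSq_eq_norm_sq]
  simp only [Complex.normSq_apply, Complex.sub_re, Complex.sub_im, Complex.mul_re, Complex.conj_re,
    Complex.conj_im]
  ring

theorem nrm2_sub {v w : Fld} (hv : Summable (msq v)) (hw : Summable (msq w)) :
    nrm2 (v - w) = nrm2 v + nrm2 w - 2 * ∑' k, ip v w k := by
  unfold nrm2
  simp_rw [msq_sub]
  rw [((hv.add hw).tsum_sub ((summable_ip hv hw).mul_left 2)), hv.tsum_add hw, tsum_mul_left]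

variable {ν T : ℝ} {u f : ℝ → Fld}

/-- weak continuity -/
theorem ip_cont (h : IsWeakSolution ν T u f) {t : ℝ} (ht : t ∈ Icc 0 T) :
    ContinuousOn (fun s => ∑' k, ip (u s) (u t) k) (Icc 0 T) := by
  obtain ⟨C, hC0, hC⟩ := exists_bound h
  have hw := summable_msq h ht
  have hu : TendstoUniformlyOn (fun N s => ∑ k ∈ bl N, ip (u s) (u t) k)
      (fun s => ∑' k, ip (u s) (u t) k) atTop (Icc 0 T) := by
    rw [Metric.tendstoUniformlyOn_iff]
    intro ε hε
    set η := ε / (C + 1) with hη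
    have hη0 : 0 < η := by positivity
    have h1 : Tendsto (fun N => ∑ k ∈ bl N, msq (u t) k) atTop (𝓝 (nrm2 (u t))) :=
      hw.hasSum.comp tendsto_bl
    filter_upwards [h1.eventually (lt_mem_nhds (show nrm2 (u t) - η * ε / 2 < nrm2 (u t) by
      have : 0 < η * ε / 2 := by positivity
      linarith))] with N hN s hs
    have hv := summable_msq h hs
    have e1 := (summable_ip hv hw).sum_add_tsum_compl (s := bl N)
    have e2 := hw.sum_add_tsum_compl (s := bl N)
    rw [Real.dist_eq, ← e1, add_sub_cancel_left]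
    have s1 : Summable fun k : ↥((bl N : Set Wv)ᶜ) => msq (u s) k := hv.subtype _
    have s2 : Summable fun k : ↥((bl N : Set Wv)ᶜ) => msq (u t) k := hw.subtype _
    have s3 : Summable fun k : ↥((bl N : Set Wv)ᶜ) =>
        (η * msq (u s) k + η⁻¹ * msq (u t) k) / 2 :=
      ((s1.mul_left η).add (s2.mul_left η⁻¹)).div_const 2
    have b1 : |∑' k : ↥((bl N : Set Wv)ᶜ), ip (u s) (u t) k|
        ≤ ∑' k : ↥((bl N : Set Wv)ᶜ), (η * msq (u s) k + η⁻¹ * msq (u t) k) / 2 := by
      rw [← Real.norm_eq_abs]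
      exact tsum_of_norm_bounded s3.hasSum fun k => abs_ip_le _ _ _ hη0
    refine b1.trans_lt ?_
    rw [tsum_div_const, (s1.mul_left η).tsum_add (s2.mul_left η⁻¹), tsum_mul_left, tsum_mul_left]
    have b2 : ∑' k : ↥((bl N : Set Wv)ᶜ), msq (u s) k ≤ C := by
      have e3 := hv.sum_add_tsum_compl (s := bl N)
      have e4 : 0 ≤ ∑ k ∈ bl N, msq (u s) k := Finset.sum_nonneg fun k _ => msq_nonneg _ _
      have e5 := hC s hs
      unfold nrm2 at e5
      linarith
    have b3 : ∑' k : ↥((bl N : Set Wv)ᶜ), msq (u t) k < η * ε / 2 := by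
      unfold nrm2 at hN
      linarith
    have b4 : η * ∑' k : ↥((bl N : Set Wv)ᶜ), msq (u s) k ≤ η * C := by gcongr
    have b5 : η⁻¹ * ∑' k : ↥((bl N : Set Wv)ᶜ), msq (u t) k < η⁻¹ * (η * ε / 2) := by gcongr
    have b6 : η⁻¹ * (η * ε / 2) = ε / 2 := by field_simp
    have b7 : η * C ≤ ε := by
      rw [hη, div_mul_eq_mul_div, div_le_iff₀ (by positivity)]
      nlinarith
    linarith
  refine hu.continuousOn (Frequently.of_forall fun N => ?_)
  refine continuousOn_finsetSum _ fun k _ => continuousOn_finsetSum _ fun j _ => ?_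
  exact Complex.continuous_re.comp_continuousOn
    ((Complex.continuous_conj.comp_continuousOn (h.cont k j)).mul continuousOn_const)

/-- the asymptotics of the increments -/
theorem asym (hT : 0 ≤ T) (h : IsWeakSolution ν T u f) {t : ℝ} (ht : t ∈ Icc 0 T) :
    Tendsto (fun s => nrm2 (u s - u t) - 2 * (energyDefect ν u f t - energyDefect ν u f s))
      (𝓝[Icc 0 T] t) (𝓝 0) := by
  have c1 : ContinuousOn (fun x => ∫ r in (0 : ℝ)..x, work (f r) (u r)) (Icc 0 T) := by
    have := intervalIntegral.continuousOn_primitive_interval'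
      (series_int hT (pw_ii hT h) (sum_pw hT h)) left_mem_uIcc
    rwa [uIcc_of_le hT] at this
  have c2 : ContinuousOn (fun x => ∫ r in (0 : ℝ)..x, ens (u r)) (Icc 0 T) := by
    have := intervalIntegral.continuousOn_primitive_interval'
      (series_int hT (ens_ii hT h) (sum_ens hT h)) left_mem_uIcc
    rwa [uIcc_of_le hT] at this
  have h1 := (c1 t ht).tendsto
  have h2 := (c2 t ht).tendsto
  have h3 := (ip_cont h ht t ht).tendsto
  simp only [ip_self] at h3
  have h4 := ((tendsto_const_nhds (x := nrm2 (u t)) (f := 𝓝[Icc 0 T] t)).sub h3).const_mul 2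
  have h5 := ((tendsto_const_nhds (x := ∫ r in (0 : ℝ)..t, work (f r) (u r))
    (f := 𝓝[Icc 0 T] t)).sub h1).const_mul 2
  have h6 := ((tendsto_const_nhds (x := ∫ r in (0 : ℝ)..t, ens (u r))
    (f := 𝓝[Icc 0 T] t)).sub h2).const_mul (2 * ν)
  have h7 := (h4.sub h5).add h6
  have e0 : nrm2 (u t) - ∑' k, msq (u t) k = 0 := sub_self _
  simp only [e0, sub_self, mul_zero, add_zero] at h7
  refine (tendsto_congr' ?_).mpr h7
  filter_upwards [self_mem_nhdsWithin] with s hs
  rw [nrm2_sub (summable_msq h hs) (summable_msq h ht)]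
  unfold energyDefect
  ring

end Pool.Agent.Helper30.TB
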