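import Mathlib
import Pool.Agent.Helper30.EJ.Sum

/-!
Real functions whose increments are bounded by the oscillation of a field times the increments of a
monotone function: the square roots of the jumps are summable.
-/

set_option linter.unusedSectionVars false
set_option autoImplicit false

open MeasureTheory Set Filter Topology Function
open scoped ENNReal

namespace Pool.Agent.Helper30.TB

open Pool.Agent.Helper30.EJ

variable {H : Type*} [NormedAddCommGroup H]

/-- the hypotheses -/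
structure HypL (c B : ℝ) (L D : ℝ → ℝ) (u : ℝ → H) : Prop where
  c0 : 0 ≤ c
  mono : Monotone L
  bdd : ∀ x y, ‖u x - u y‖ ≤ B
  key : ∀ s t, s ≤ t → ∀ ω, (∀ x ∈ Icc s t, ∀ y ∈ Icc s t, ‖u x - u y‖ ≤ ω) →
    |D t - D s| ≤ c * ω * (L t - L s)
  lsc : ∀ t, Tendsto (fun s => ‖u s - u t‖ ^ 2 - 2 * (D t - D s)) (𝓝 t) (𝓝 0)

namespace HypL

variable {c B : ℝ} {L D : ℝ → ℝ} {u : ℝ → H}

theorem B0 (h : HypL c B L D u) : 0 ≤ B := (norm_nonneg _).trans (h.bdd 0 0)

theorem toHyp (h : HypL c B L D u) : Hyp (c * Real.sqrt B) B L D u where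
  c0 := mul_nonneg h.c0 (Real.sqrt_nonneg _)
  mono := h.mono
  bdd := h.bdd
  key := fun s t hst ω hω => by
    have hω0 : 0 ≤ ω := (norm_nonneg _).trans (hω s ⟨le_rfl, hst⟩ s ⟨le_rfl, hst⟩)
    have hm0 : 0 ≤ min ω B := le_min hω0 h.B0
    have h1 := h.key s t hst (min ω B) fun x hx y hy => le_min (hω x hx y hy) (h.bdd x y)
    have hL : 0 ≤ L t - L s := sub_nonneg.mpr (h.mono hst)
    have hc := h.c0
    refine h1.trans ?_
    have h2 : min ω B ≤ Real.sqrt B * Real.sqrt ω := by
      calc min ω B = Real.sqrt (min ω B) * Real.sqrt (min ω B) := (Real.mul_self_sqrt hm0).symm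
        _ ≤ Real.sqrt B * Real.sqrt ω := by
          gcongr
          · exact min_le_right _ _
          · exact min_le_left _ _
    calc c * min ω B * (L t - L s) ≤ c * (Real.sqrt B * Real.sqrt ω) * (L t - L s) := by gcongr
      _ = c * Real.sqrt B * Real.sqrt ω * (L t - L s) := by ring
  lsc := h.lsc

/-- reflection -/
theorem refl (h : HypL c B L D u) :
    HypL c B (fun x => -L (-x)) (fun x => D (-x)) (fun x => u (-x)) where
  c0 := h.c0
  mono := fun x y hxy => neg_le_neg (h.mono (neg_le_neg hxy))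
  bdd := fun x y => h.bdd _ _
  key := fun s t hst ω hω => by
    have h1 := h.key (-t) (-s) (neg_le_neg hst) ω (fun x hx y hy => by
      have := hω (-x) ⟨by linarith [hx.2], by linarith [hx.1]⟩ (-y)
        ⟨by linarith [hy.2], by linarith [hy.1]⟩
      simpa using this)
    rw [abs_sub_comm] at h1
    refine h1.trans (le_of_eq ?_)
    ring
  lsc := h.toHyp.refl.lsc

theorem jump_left (h : HypL c B L D u) (t : ℝ) :
    ja D t ≤ c * (2 * Real.sqrt (2 * ja D t)) * (L t - leftLim L t) := by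
  have H := h.toHyp
  have step : ∀ ε > 0, ja D t
      ≤ c * (2 * Real.sqrt (2 * ja D t + ε)) * (L t - leftLim L t) := by
    intro ε hε
    have h1 : ∀ᶠ s in 𝓝[<] t, ‖u s - u t‖ ^ 2 < 2 * ja D t + ε :=
      (H.nsq_left t).eventually (gt_mem_nhds (by linarith))
    obtain ⟨δ, hδ, hδ'⟩ := (mem_nhdsLT_iff_exists_Ioo_subset).mp h1
    have h2 : Tendsto (fun s => |D t - D s|) (𝓝[<] t) (𝓝 |ja D t|) :=
      ((tendsto_const_nhds (x := D t)).sub (H.tendsto_left t)).abs
    have h3 : Tendsto (fun s => c * (2 * Real.sqrt (2 * ja D t + ε)) * (L t - L s))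
        (𝓝[<] t) (𝓝 (c * (2 * Real.sqrt (2 * ja D t + ε)) * (L t - leftLim L t))) :=
      ((tendsto_const_nhds (x := L t)).sub (h.mono.tendsto_leftLim t)).const_mul _
    have h4 := le_of_tendsto_of_tendsto h2 h3 (by
      filter_upwards [Ioo_mem_nhdsLT hδ] with s hs
      refine h.key s t hs.2.le _ ?_
      have h5 : ∀ x ∈ Icc s t, ‖u x - u t‖ ≤ Real.sqrt (2 * ja D t + ε) := by
        intro x hx
        rcases hx.2.eq_or_lt with e | e
        · rw [e, sub_self, norm_zero]
          exact Real.sqrt_nonneg _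
        · have := hδ' ⟨lt_of_lt_of_le hs.1 hx.1, e⟩
          exact Real.le_sqrt_of_sq_le (le_of_lt this)
      intro x hx y hy
      have e : u x - u y = (u x - u t) - (u y - u t) := by abel
      rw [e]
      refine (norm_sub_le _ _).trans ?_
      have := h5 x hx
      have := h5 y hy
      linarith)
    exact (le_abs_self _).trans h4
  have hc : Continuous fun ε : ℝ =>
      c * (2 * Real.sqrt (2 * ja D t + ε)) * (L t - leftLim L t) := by fun_prop
  have h6 : Tendsto (fun ε : ℝ =>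
      c * (2 * Real.sqrt (2 * ja D t + ε)) * (L t - leftLim L t)) (𝓝[>] 0)
      (𝓝 (c * (2 * Real.sqrt (2 * ja D t + 0)) * (L t - leftLim L t))) :=
    (hc.tendsto 0).mono_left nhdsWithin_le_nhds
  rw [add_zero] at h6
  refine ge_of_tendsto h6 ?_
  filter_upwards [self_mem_nhdsWithin] with ε hε
  exact step ε hε

theorem sqrt_of_jump {a c l : ℝ} (ha : 0 ≤ a) (hc : 0 ≤ c) (hl : 0 ≤ l)
    (h : a ≤ c * (2 * Real.sqrt (2 * a)) * l) :
    Real.sqrt a ≤ 2 * Real.sqrt 2 * c * l := by
  rcases ha.eq_or_lt with rfl | ha'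
  · rw [Real.sqrt_zero]
    positivity
  have hs : 0 < Real.sqrt a := Real.sqrt_pos.mpr ha'
  rw [Real.sqrt_mul (by norm_num)] at h
  have e : a = Real.sqrt a * Real.sqrt a := (Real.mul_self_sqrt ha).symm
  have h2 : Real.sqrt a * Real.sqrt a ≤ (2 * Real.sqrt 2 * c * l) * Real.sqrt a := by
    calc Real.sqrt a * Real.sqrt a = a := e.symm
      _ ≤ c * (2 * (Real.sqrt 2 * Real.sqrt a)) * l := h
      _ = _ := by ring
  exact le_of_mul_le_mul_right h2 hs

theorem sqrt_ja (h : HypL c B L D u) (t : ℝ) :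
    Real.sqrt (ja D t) ≤ 2 * Real.sqrt 2 * c * (L t - leftLim L t) :=
  sqrt_of_jump (h.toHyp.ja0 t) h.c0 (sub_nonneg.mpr (h.mono.leftLim_le le_rfl)) (h.jump_left t)

theorem sqrt_jb (h : HypL c B L D u) (t : ℝ) :
    Real.sqrt (jb D t) ≤ 2 * Real.sqrt 2 * c * (rightLim L t - L t) := by
  have h1 := h.refl.sqrt_ja (-t)
  have e1 : ja (fun x => D (-x)) (-t) = jb D t := by
    unfold ja jb
    rw [Hyp.leftLim_refl (h.toHyp.tendsto_right t)]
    simp only [neg_neg]
  have e2 : leftLim (fun x => -L (-x)) (-t) = -rightLim L t := by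
    have := Hyp.leftLim_refl (D := fun x => -L x) (t := t) (l := -rightLim L t)
      ((h.mono.tendsto_rightLim t).neg)
    exact this
  rw [e1, e2] at h1
  simp only [neg_neg] at h1
  refine h1.trans (le_of_eq ?_)
  ring

/-- the sum of the square roots of the jumps -/
theorem tsum_sqrt (h : HypL c B L D u) {p q : ℝ} (hp : ∀ x, p ≤ L x) (hq : ∀ x, L x ≤ q) :
    ∑' t, ENNReal.ofReal (Real.sqrt (ja D t) + Real.sqrt (jb D t))
      ≤ ENNReal.ofReal (2 * Real.sqrt 2 * c * (q - p)) := by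
  have hc0 := h.c0
  have hc : 0 ≤ 2 * Real.sqrt 2 * c := by positivity
  calc ∑' t, ENNReal.ofReal (Real.sqrt (ja D t) + Real.sqrt (jb D t))
      ≤ ∑' t, ENNReal.ofReal (2 * Real.sqrt 2 * c)
          * ENNReal.ofReal (rightLim L t - leftLim L t) := by
        refine ENNReal.tsum_le_tsum fun t => ?_
        rw [← ENNReal.ofReal_mul hc]
        refine ENNReal.ofReal_le_ofReal ?_
        have := h.sqrt_ja t
        have := h.sqrt_jb t
        linarith
    _ = ENNReal.ofReal (2 * Real.sqrt 2 * c)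
          * ∑' t, ENNReal.ofReal (rightLim L t - leftLim L t) := ENNReal.tsum_mul_left
    _ ≤ ENNReal.ofReal (2 * Real.sqrt 2 * c) * ENNReal.ofReal (q - p) :=
        mul_le_mul_right (Hyp.tsum_jumps h.mono hp hq) _
    _ = _ := (ENNReal.ofReal_mul hc).symm

end HypL

end Pool.Agent.Helper30.TB
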