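import Mathlib
import Pool.Agent.Helper30.TB.Real2

/-!
The representation of the defect on an interval.
-/

set_option autoImplicit false

namespace Pool.Agent.Helper30.TB

open MeasureTheory Set Filter Topology Function
open scoped ENNReal

open Pool.Agent.Helper30.EJ

/-- the projection onto `[0,T]` -/
noncomputable def cl (T x : ℝ) : ℝ := max 0 (min x T)

variable {T : ℝ}

theorem cl_mem (hT : 0 ≤ T) (x : ℝ) : cl T x ∈ Icc 0 T :=
  ⟨le_max_left _ _, max_le hT (min_le_right _ _)⟩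

theorem cl_of_mem {x : ℝ} (hx : x ∈ Icc 0 T) : cl T x = x := by
  unfold cl
  rw [min_eq_left hx.2, max_eq_right hx.1]

theorem cl_mono (T : ℝ) : Monotone (cl T) := fun _ _ h =>
  max_le_max le_rfl (min_le_min h le_rfl)

theorem cl_cont (T : ℝ) : Continuous (cl T) := by unfold cl; fun_prop

theorem cl_neg (hT : 0 ≤ T) {x : ℝ} (hx : x ≤ 0) : cl T x = 0 := by
  unfold cl
  rw [min_eq_left (hx.trans hT), max_eq_left hx]

theorem ja_zero_of_const {D : ℝ → ℝ} {t : ℝ} (h : ∀ᶠ x in 𝓝[<] t, D x = D t) : ja D t = 0 := by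
  unfold ja
  rw [leftLim_eq_of_tendsto (f := D) (a := t) (y := D t)
    ((tendsto_congr' h).mpr tendsto_const_nhds), sub_self]

theorem jb_zero_of_const {D : ℝ → ℝ} {t : ℝ} (h : ∀ᶠ x in 𝓝[>] t, D x = D t) : jb D t = 0 := by
  unfold jb
  rw [rightLim_eq_of_tendsto (f := D) (a := t) (y := D t)
    ((tendsto_congr' h).mpr tendsto_const_nhds), sub_self]

variable {H : Type*} [NormedAddCommGroup H]

/-- **The representation on an interval.** -/
theorem final {c B K : ℝ} {L D : ℝ → ℝ} {U : ℝ → H} (hT : 0 < T)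
    (h : HypL c B (fun x => L (cl T x)) (fun x => D (cl T x)) (fun x => U (cl T x)))
    (hD0 : D 0 = 0) (hL0 : ∀ x ∈ Icc 0 T, 0 ≤ L x) (hLK : ∀ x ∈ Icc 0 T, L x ≤ K) :
    ∃ a b : ℝ → ℝ, (∀ τ, 0 ≤ a τ ∧ 0 ≤ b τ) ∧ Summable a ∧ Summable b ∧
      (∀ t ∈ Icc 0 T, D t
        = ∑' τ, (Ioc 0 t).indicator a τ - ∑' τ, (Ico 0 t).indicator b τ) ∧
      ∑' τ, ENNReal.ofReal (Real.sqrt (a τ) + Real.sqrt (b τ))
        ≤ ENNReal.ofReal (2 * Real.sqrt 2 * c * K) ∧
      (∀ τ ∈ Ioc 0 T, Tendsto (fun s => ‖U s - U τ‖ ^ 2) (𝓝[<] τ) (𝓝 (2 * a τ))) ∧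
      (∀ τ ∈ Ico 0 T, Tendsto (fun s => ‖U s - U τ‖ ^ 2) (𝓝[>] τ) (𝓝 (2 * b τ))) := by
  have hp : ∀ x, 0 ≤ L (cl T x) := fun x => hL0 _ (cl_mem hT.le x)
  have hq : ∀ x, L (cl T x) ≤ K := fun x => hLK _ (cl_mem hT.le x)
  have Hh := h.toHyp
  set E : ℝ → ℝ := fun x => D (cl T x) with hE
  obtain ⟨hsa, hsb, hrep⟩ := Hh.representation hp hq
  have hE0 : ∀ x ≤ 0, E x = 0 := by
    intro x hx
    show D (cl T x) = 0
    rw [cl_neg hT.le hx, hD0]
  have ha0 : ∀ τ ≤ 0, ja E τ = 0 := by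
    intro τ hτ
    refine ja_zero_of_const ?_
    filter_upwards [self_mem_nhdsWithin] with x hx
    have hx' : x < τ := hx
    rw [hE0 x (hx'.le.trans hτ), hE0 τ hτ]
  have hb0 : ∀ τ < 0, jb E τ = 0 := by
    intro τ hτ
    refine jb_zero_of_const ?_
    filter_upwards [Ioo_mem_nhdsGT hτ] with x hx
    rw [hE0 x hx.2.le, hE0 τ hτ.le]
  refine ⟨ja E, jb E, fun τ => ⟨Hh.ja0 τ, Hh.jb0 τ⟩, hsa, hsb, ?_, ?_, ?_, ?_⟩
  · intro t ht
    have h1 := hrep (-1) t
    have hle : (-1 : ℝ) ≤ t := by linarith [ht.1]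
    have h2 := SA_sub hsa hle
    have h3 := SB_sub hsb hle
    have e1 : (Ioc (-1) t).indicator (ja E) = (Ioc 0 t).indicator (ja E) := by
      funext τ
      by_cases hτ : τ ∈ Ioc 0 t
      · rw [indicator_of_mem hτ, indicator_of_mem
          (show τ ∈ Ioc (-1) t from ⟨by linarith [hτ.1], hτ.2⟩)]
      · rw [indicator_of_notMem hτ]
        by_cases hτ' : τ ∈ Ioc (-1) t
        · rw [indicator_of_mem hτ']
          refine ha0 τ ?_
          by_contra hcon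
          exact hτ ⟨not_le.mp hcon, hτ'.2⟩
        · rw [indicator_of_notMem hτ']
    have e2 : (Ico (-1) t).indicator (jb E) = (Ico 0 t).indicator (jb E) := by
      funext τ
      by_cases hτ : τ ∈ Ico 0 t
      · rw [indicator_of_mem hτ, indicator_of_mem
          (show τ ∈ Ico (-1) t from ⟨by linarith [hτ.1], hτ.2⟩)]
      · rw [indicator_of_notMem hτ]
        by_cases hτ' : τ ∈ Ico (-1) t
        · rw [indicator_of_mem hτ']
          refine hb0 τ ?_
          by_contra hcon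
          exact hτ ⟨not_lt.mp hcon, hτ'.2⟩
        · rw [indicator_of_notMem hτ']
    rw [e1] at h2
    rw [e2] at h3
    have h4 : E t = D t := by
      show D (cl T t) = _
      rw [cl_of_mem ht]
    have h5 := hE0 (-1) (by norm_num)
    rw [h5, sub_zero, h4] at h1
    rw [h1, ← h2, ← h3]
    ring
  · have h1 := h.tsum_sqrt hp hq
    rw [sub_zero] at h1
    exact h1
  · intro τ hτ
    have h1 := Hh.nsq_left τ
    have hτ' : τ ∈ Icc 0 T := ⟨hτ.1.le, hτ.2⟩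
    refine (tendsto_congr' ?_).mp h1
    filter_upwards [Ioo_mem_nhdsLT hτ.1] with s hs
    rw [cl_of_mem (T := T) ⟨hs.1.le, hs.2.le.trans hτ.2⟩, cl_of_mem hτ']
  · intro τ hτ
    have h1 := Hh.nsq_right τ
    have hτ' : τ ∈ Icc 0 T := ⟨hτ.1, hτ.2.le⟩
    refine (tendsto_congr' ?_).mp h1
    filter_upwards [Ioo_mem_nhdsGT hτ.2] with s hs
    rw [cl_of_mem (T := T) ⟨hτ.1.trans hs.1.le, hs.2.le⟩, cl_of_mem hτ']

end Pool.Agent.Helper30.TB
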