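import Mathlib
import Pool.Agent.Helper30.TB.Defect

/-!
The increments of the energy defect in terms of the oscillation and of the energy in the bands.
-/

set_option autoImplicit false

namespace Pool.Agent.Helper30.TB

open MeasureTheory Set Filter Topology
open scoped ENNReal

variable {ν T : ℝ} {u f : ℝ → Fld}

/-- the sum of the amplitudes in the ball -/
noncomputable def SA1 (N : ℕ) (v : Fld) : ℝ := ∑ k ∈ bl N, am v k

theorem SA1_nonneg (N : ℕ) (v : Fld) : 0 ≤ SA1 N v := Finset.sum_nonneg fun k _ => am_nonneg v k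

theorem sum_am_le {v : Fld} (S : Finset Wv) {a : ℝ} (ha : ∑ k ∈ S, msq v k ≤ a) {n : ℝ}
    (hn : (S.card : ℝ) ≤ n) : ∑ k ∈ S, am v k ≤ Real.sqrt n * Real.sqrt a := by
  have h1 := Real.sum_mul_le_sqrt_mul_sqrt S (fun _ => (1 : ℝ)) (am v)
  simp only [one_mul, one_pow, Finset.sum_const, nsmul_eq_mul, mul_one, am_sq] at h1
  refine h1.trans ?_
  gcongr

theorem SA1_le {v : Fld} (hv : Summable (msq v)) (N : ℕ) :
    SA1 N v ≤ Real.sqrt ((2 * (N : ℝ) + 1) ^ 3) * Real.sqrt (nrm2 v) :=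
  sum_am_le _ (hv.sum_le_tsum _ fun k _ => msq_nonneg v k) (card_bl N)

theorem am_add_le (v w : Fld) (k : Wv) : am v k ≤ am (v - w) k + am w k := by
  have h := norm_add_le (WithLp.toLp 2 ((v - w) k) : EuclideanSpace ℂ (Fin 3))
    (WithLp.toLp 2 (w k))
  rw [EuclideanSpace.norm_eq, EuclideanSpace.norm_eq, EuclideanSpace.norm_eq] at h
  unfold am msq
  refine le_trans (le_of_eq ?_) h
  congr 1
  refine Finset.sum_congr rfl fun j _ => ?_
  have : (WithLp.toLp 2 ((v - w) k) + WithLp.toLp 2 (w k) : EuclideanSpace ℂ (Fin 3)) j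
      = v k j := by
    show (v - w) k j + w k j = v k j
    simp
  rw [this]

theorem SA1_add (N : ℕ) (v w : Fld) : SA1 N v ≤ SA1 N (v - w) + SA1 N w := by
  unfold SA1
  rw [← Finset.sum_add_distrib]
  exact Finset.sum_le_sum fun k _ => am_add_le v w k

theorem summable_sub {v w : Fld} (hv : Summable (msq v)) (hw : Summable (msq w)) :
    Summable (msq (v - w)) := by
  refine Summable.of_nonneg_of_le (msq_nonneg _) (fun k => ?_) ((hv.add hw).mul_left 2)
  unfold msq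
  rw [← Finset.sum_add_distrib, Finset.mul_sum]
  refine Finset.sum_le_sum fun j _ => ?_
  have h1 : ‖(v - w) k j‖ ≤ ‖v k j‖ + ‖w k j‖ := norm_sub_le _ _
  have h2 := norm_nonneg ((v - w) k j)
  nlinarith [sq_nonneg (‖v k j‖ - ‖w k j‖)]

theorem pow52 (N : ℕ) : (N : ℝ) ^ (5 / 2 : ℝ) = N * Real.sqrt ((N : ℝ) ^ 3) := by
  have hN : (0 : ℝ) ≤ N := Nat.cast_nonneg N
  rw [Real.sqrt_eq_rpow, ← Real.rpow_natCast (N : ℝ) 3, ← Real.rpow_mul hN]
  rcases hN.eq_or_lt with h | h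
  · rw [← h]
    rw [Real.zero_rpow (by norm_num), zero_mul]
  · conv_rhs => rw [← Real.rpow_one (N : ℝ)]
    rw [← Real.rpow_mul hN, ← Real.rpow_add h]
    norm_num

theorem sqrt_card_le {N : ℕ} (hN : 1 ≤ N) :
    Real.sqrt ((2 * ((2 * N : ℕ) : ℝ) + 1) ^ 3) ≤ Real.sqrt 125 * Real.sqrt ((N : ℝ) ^ 3) := by
  rw [← Real.sqrt_mul (by norm_num)]
  refine Real.sqrt_le_sqrt ?_
  have h1 : (1 : ℝ) ≤ N := by exact_mod_cast hN
  push_cast
  calc (2 * (2 * (N : ℝ)) + 1) ^ 3 ≤ (5 * N) ^ 3 := by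
        gcongr
        linarith
    _ = _ := by ring

/-- for a fixed field the sum of the amplitudes is small -/
theorem SA1_lim {v : Fld} (hv : Summable (msq v)) :
    Tendsto (fun N : ℕ => SA1 (2 * N) v / Real.sqrt ((N : ℝ) ^ 3)) atTop (𝓝 0) := by
  classical
  rw [Metric.tendsto_atTop]
  intro ε hε
  -- a finite set with small complement
  set δ := (ε / (2 * Real.sqrt 125 + 1)) ^ 2 with hδ
  have h125 : 0 ≤ Real.sqrt 125 := Real.sqrt_nonneg _
  have hδ0 : 0 < δ := by positivity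
  have h1 : Tendsto (fun N => ∑ k ∈ bl N, msq v k) atTop (𝓝 (nrm2 v)) :=
    hv.hasSum.comp tendsto_bl
  obtain ⟨N0, hN0⟩ := (h1.eventually (lt_mem_nhds (show nrm2 v - δ < nrm2 v by linarith))).exists
  -- the cube root
  have h2 : Tendsto (fun N : ℕ => Real.sqrt ((N : ℝ) ^ 3)) atTop atTop := by
    refine Real.tendsto_sqrt_atTop.comp ?_
    exact (tendsto_pow_atTop (by norm_num)).comp tendsto_natCast_atTop_atTop
  have h3 : Tendsto (fun N : ℕ => SA1 N0 v / Real.sqrt ((N : ℝ) ^ 3)) atTop (𝓝 0) :=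
    h2.const_div_atTop _
  obtain ⟨N1, hN1⟩ := (eventually_atTop.mp (h3.eventually (gt_mem_nhds (show (0 : ℝ) < ε / 2 by linarith))))
  refine ⟨max (max N0 N1) 1, fun N hN => ?_⟩
  have hNN0 : N0 ≤ 2 * N := by
    have : N0 ≤ N := (le_max_left _ _).trans ((le_max_left _ _).trans hN)
    omega
  have hNN1 : N1 ≤ N := (le_max_right _ _).trans ((le_max_left _ _).trans hN)
  have hN' : 1 ≤ N := (le_max_right _ _).trans hN
  have hNr : (1 : ℝ) ≤ N := by exact_mod_cast hN'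
  have hs : 0 < Real.sqrt ((N : ℝ) ^ 3) := Real.sqrt_pos.mpr (by positivity)
  rw [Real.dist_eq, sub_zero, abs_of_nonneg (div_nonneg (SA1_nonneg _ _) hs.le)]
  have e1 : SA1 (2 * N) v = SA1 N0 v + ∑ k ∈ bl (2 * N) \ bl N0, am v k := by
    unfold SA1
    rw [add_comm, Finset.sum_sdiff (bl_mono hNN0)]
  have e2 : ∑ k ∈ bl (2 * N) \ bl N0, am v k
      ≤ Real.sqrt ((2 * ((2 * N : ℕ) : ℝ) + 1) ^ 3) * Real.sqrt δ := by
    refine sum_am_le _ ?_ ?_
    · have h5 : ∑ k ∈ bl (2 * N) \ bl N0, msq v k + ∑ k ∈ bl N0, msq v k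
          = ∑ k ∈ bl (2 * N), msq v k := Finset.sum_sdiff (bl_mono hNN0)
      have h6 : ∑ k ∈ bl (2 * N), msq v k ≤ nrm2 v := hv.sum_le_tsum _ fun k _ => msq_nonneg v k
      linarith
    · have h7 : ((bl (2 * N) \ bl N0).card : ℝ) ≤ ((bl (2 * N)).card : ℝ) := by
        exact_mod_cast Finset.card_le_card Finset.sdiff_subset
      exact h7.trans (card_bl _)
  have e3 : Real.sqrt δ = ε / (2 * Real.sqrt 125 + 1) := by
    rw [hδ, Real.sqrt_sq (by positivity)]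
  have e4 := sqrt_card_le hN'
  have e5 : Real.sqrt 125 * (ε / (2 * Real.sqrt 125 + 1)) ≤ ε / 2 := by
    rw [mul_div_assoc', div_le_div_iff₀ (by positivity) (by norm_num)]
    nlinarith
  have e6 := hN1 N hNN1
  calc SA1 (2 * N) v / Real.sqrt ((N : ℝ) ^ 3)
      ≤ (SA1 N0 v + (Real.sqrt 125 * Real.sqrt ((N : ℝ) ^ 3)) * Real.sqrt δ)
          / Real.sqrt ((N : ℝ) ^ 3) := by
        rw [e1]
        gcongr
        refine e2.trans ?_
        gcongr
    _ = SA1 N0 v / Real.sqrt ((N : ℝ) ^ 3) + Real.sqrt 125 * Real.sqrt δ := by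
        field_simp
    _ < ε / 2 + ε / 2 := by
        rw [e3]
        exact add_lt_add_of_lt_of_le e6 e5
    _ = ε := by ring

/-- the functions whose limit is the monotone function -/
noncomputable def Lf (u : ℝ → Fld) (N : ℕ) (t : ℝ) : ℝ :=
  (N : ℝ) ^ (5 / 2 : ℝ) * ∫ τ in (0 : ℝ)..t, gE (bandS N) (u τ)

theorem Lf_sub (hT : 0 ≤ T) (h : IsWeakSolution ν T u f) (N : ℕ) {s t : ℝ} (h0 : 0 ≤ s)
    (hst : s ≤ t) (ht : t ≤ T) :
    Lf u N t - Lf u N s = (N : ℝ) ^ (5 / 2 : ℝ) * ∫ τ in s..t, gE (bandS N) (u τ) := by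
  unfold Lf
  rw [← mul_sub, intervalIntegral.integral_interval_sub_left
    (sub_ii (gE_ii hT h _) le_rfl (h0.trans hst) ht)
    (sub_ii (gE_ii hT h _) le_rfl h0 (hst.trans ht))]

theorem Lf_mono (hT : 0 ≤ T) (h : IsWeakSolution ν T u f) (N : ℕ) {s t : ℝ} (h0 : 0 ≤ s)
    (hst : s ≤ t) (ht : t ≤ T) : Lf u N s ≤ Lf u N t := by
  have h1 := Lf_sub hT h N h0 hst ht
  have h2 : 0 ≤ (N : ℝ) ^ (5 / 2 : ℝ) * ∫ τ in s..t, gE (bandS N) (u τ) :=
    mul_nonneg (by positivity) (intervalIntegral.integral_nonneg hst fun τ _ => gE_nonneg _ _)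
  linarith

theorem Lf_zero (N : ℕ) : Lf u N 0 = 0 := by simp [Lf]

/-- the tail is the band and the far part -/
theorem tail_le {v : Fld} (hv : Summable (msq v)) (N : ℕ) :
    tailE v N ≤ gE (bandS N) v + gE (farS N) v := by
  have hd : Disjoint (bandS N) (farS N) := by
    rw [Set.disjoint_left]
    intro k h1 h2
    exact absurd h2 (not_lt.mpr h1.2)
  rw [← gE_add hv hd]
  refine gE_mono hv fun k hk => ?_
  have hk' : (N : ℝ) ^ 2 < nsq k := hk
  rcases le_or_gt (nsq k) ((N : ℝ) ^ (5 / 2 : ℝ)) with h | h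
  · exact Or.inl ⟨hk', h⟩
  · exact Or.inr h

/-- **The key estimate.** -/
theorem key_N (hT : 0 ≤ T) (h : IsWeakSolution ν T u f) {N : ℕ} (hN : 1 ≤ N) {s t : ℝ}
    (h0 : 0 ≤ s) (hst : s ≤ t) (ht : t ≤ T) {w : ℝ}
    (hw : ∀ x ∈ Icc s t, Real.sqrt (nrm2 (u x - u s)) ≤ w) :
    |∫ τ in s..t, flux (u τ) (2 * N)|
      ≤ 4 * (Real.sqrt 125 * w + SA1 (2 * N) (u s) / Real.sqrt ((N : ℝ) ^ 3))
        * (Lf u N t - Lf u N s + zf u T N) := by
  have hNr : (1 : ℝ) ≤ N := by exact_mod_cast hN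
  have hs0 : s ∈ Icc 0 T := ⟨h0, hst.trans ht⟩
  have hsq : 0 < Real.sqrt ((N : ℝ) ^ 3) := Real.sqrt_pos.mpr (by positivity)
  have hw0 : 0 ≤ w := (Real.sqrt_nonneg _).trans (hw s ⟨le_rfl, hst⟩)
  have hS0 := SA1_nonneg (2 * N) (u s)
  set A : ℝ := Real.sqrt 125 * Real.sqrt ((N : ℝ) ^ 3) * w + SA1 (2 * N) (u s) with hA
  have hA0 : 0 ≤ A := by positivity
  have hin : ∀ x ∈ Icc s t, x ∈ Icc 0 T := fun x hx => ⟨h0.trans hx.1, hx.2.trans ht⟩
  have hpt : ∀ x ∈ Icc s t, |flux (u x) (2 * N)|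
      ≤ 4 * N * A * (gE (bandS N) (u x) + gE (farS N) (u x)) := by
    intro x hx
    have h1 := flux_bound (h.adm x (hin x hx)) (summable_msq h (hin x hx)) N
    have h2 : ∑ k ∈ bl (2 * N), am (u x) k ≤ A := by
      have h3 := SA1_add (2 * N) (u x) (u s)
      have h4 := SA1_le (summable_sub (summable_msq h (hin x hx)) (summable_msq h hs0)) (2 * N)
      have h5 : Real.sqrt ((2 * ((2 * N : ℕ) : ℝ) + 1) ^ 3) * Real.sqrt (nrm2 (u x - u s))
          ≤ Real.sqrt 125 * Real.sqrt ((N : ℝ) ^ 3) * w :=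
        mul_le_mul (sqrt_card_le hN) (hw x hx) (Real.sqrt_nonneg _) (by positivity)
      show SA1 (2 * N) (u x) ≤ A
      rw [hA]
      linarith
    have h3 := tail_le (summable_msq h (hin x hx)) N
    have h4 : 0 ≤ ∑ k ∈ bl (2 * N), am (u x) k := SA1_nonneg _ _
    have h5 : 0 ≤ tailE (u x) N := gE_nonneg _ _
    calc |flux (u x) (2 * N)| ≤ 4 * N * (∑ k ∈ bl (2 * N), am (u x) k) * tailE (u x) N := h1
      _ ≤ _ := by gcongr
  have i1 := sub_ii (gE_ii hT h (bandS N)) h0 hst ht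
  have i2 := sub_ii (gE_ii hT h (farS N)) h0 hst ht
  have h6 : |∫ τ in s..t, flux (u τ) (2 * N)|
      ≤ ∫ τ in s..t, 4 * N * A * (gE (bandS N) (u τ) + gE (farS N) (u τ)) := by
    have h7 := intervalIntegral.norm_integral_le_of_norm_le (a := s) (b := t) (μ := volume)
      (f := fun τ => flux (u τ) (2 * N))
      (g := fun τ => 4 * N * A * (gE (bandS N) (u τ) + gE (farS N) (u τ))) hst
      (Eventually.of_forall fun x hx => hpt x (Ioc_subset_Icc_self hx)) ((i1.add i2).const_mul _)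
    exact h7
  refine h6.trans ?_
  rw [intervalIntegral.integral_const_mul, intervalIntegral.integral_add i1 i2]
  have h8 := far_bound hT h N h0 hst ht
  have h9 := Lf_sub hT h N h0 hst ht
  have h10 : (0 : ℝ) < (N : ℝ) ^ (5 / 2 : ℝ) := by positivity
  have e : 4 * (N : ℝ) * A = 4 * (Real.sqrt 125 * w + SA1 (2 * N) (u s) / Real.sqrt ((N : ℝ) ^ 3))
      * (N : ℝ) ^ (5 / 2 : ℝ) := by
    rw [pow52, hA]
    field_simp
  rw [e, mul_assoc, h9]
  have h11 : 0 ≤ 4 * (Real.sqrt 125 * w + SA1 (2 * N) (u s) / Real.sqrt ((N : ℝ) ^ 3)) := by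
    positivity
  refine mul_le_mul_of_nonneg_left ?_ h11
  rw [mul_add]
  linarith

end Pool.Agent.Helper30.TB
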