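import Mathlib
import Pool.Agent.Helper30.TB.Key
import Pool.Agent.Helper30.TB.Real2

/-!
The limit of the band energies and the abstract hypotheses.
-/

set_option autoImplicit false

namespace Pool.Agent.Helper30.TB

open MeasureTheory Set Filter Topology
open scoped ENNReal

variable {ν T : ℝ} {u f : ℝ → Fld}

/-- the constant -/
noncomputable def cb : ℝ := 4 * Real.sqrt 125

theorem cb_nonneg : 0 ≤ cb := by unfold cb; positivity

/-- **The limit.** -/
theorem exists_limit (hT : 0 ≤ T) (h : IsWeakSolution ν T u f)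
    (hK : liminf (fun N : ℕ => ENNReal.ofReal (Lf u N T)) atTop ≠ ⊤) :
    ∃ L : ℝ → ℝ, MonotoneOn L (Icc 0 T) ∧ (∀ t ∈ Icc 0 T, 0 ≤ L t) ∧
      L T ≤ (liminf (fun N : ℕ => ENNReal.ofReal (Lf u N T)) atTop).toReal ∧
      ∀ s t, 0 ≤ s → s ≤ t → t ≤ T → ∀ w,
        (∀ x ∈ Icc s t, Real.sqrt (nrm2 (u x - u s)) ≤ w) →
        |energyDefect ν u f t - energyDefect ν u f s| ≤ cb * w * (L t - L s) := by
  set K := liminf (fun N : ℕ => ENNReal.ofReal (Lf u N T)) atTop with hKdef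
  have hex : ∀ n : ℕ, ∃ r : ℕ, n + 1 ≤ r ∧ Lf u r T ≤ K.toReal + 1 / ((n : ℝ) + 1) := by
    intro n
    have hn : (0 : ℝ) < 1 / ((n : ℝ) + 1) := by positivity
    have h1 : K < K + ENNReal.ofReal (1 / ((n : ℝ) + 1)) :=
      ENNReal.lt_add_right hK (by simpa using hn)
    have h2 := frequently_lt_of_liminf_lt (by isBoundedDefault) (hKdef ▸ h1)
    obtain ⟨r, hr, hr2⟩ := (h2.and_eventually (eventually_ge_atTop (n + 1))).exists
    refine ⟨r, hr2, ?_⟩
    have h3 := ENNReal.toReal_mono (ENNReal.add_ne_top.mpr ⟨hK, ENNReal.ofReal_ne_top⟩) hr.le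
    have h0 : 0 ≤ Lf u r T := by
      have := Lf_mono hT h r le_rfl hT le_rfl
      rwa [Lf_zero] at this
    rwa [ENNReal.toReal_ofReal h0, ENNReal.toReal_add hK ENNReal.ofReal_ne_top,
      ENNReal.toReal_ofReal hn.le] at h3
  choose r hr1 hr2 using hex
  have hr : Tendsto r atTop atTop := tendsto_atTop_mono (fun n => (Nat.le_succ n).trans (hr1 n)) tendsto_id
  have hnn : ∀ n : ℕ, ∀ x ∈ Icc 0 T, 0 ≤ Lf u (r n) x := by
    intro n x hx
    have := Lf_mono hT h (r n) le_rfl hx.1 hx.2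
    rwa [Lf_zero] at this
  have hle : ∀ n : ℕ, ∀ x ∈ Icc 0 T, Lf u (r n) x ≤ K.toReal + 1 := by
    intro n x hx
    have h1 := Lf_mono hT h (r n) hx.1 hx.2 le_rfl
    have h2 := hr2 n
    have h3 : 1 / ((n : ℝ) + 1) ≤ 1 := by
      rw [div_le_one (by positivity)]
      have : (0 : ℝ) ≤ n := Nat.cast_nonneg n
      linarith
    linarith
  let F : Ultrafilter ℕ := hyperfilter ℕ
  have hF : (F : Filter ℕ) ≤ atTop := by
    rw [← Nat.cofinite_eq_atTop]
    exact hyperfilter_le_cofinite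
  have hlim : ∀ x ∈ Icc 0 T, ∃ l, Tendsto (fun n => Lf u (r n) x) F (𝓝 l) := by
    intro x hx
    obtain ⟨l, _, hl⟩ := (isCompact_Icc (a := (0 : ℝ)) (b := K.toReal + 1)).ultrafilter_le_nhds
      (F.map fun n => Lf u (r n) x) (by
        rw [le_principal_iff]
        show (fun n => Lf u (r n) x) ⁻¹' Icc 0 (K.toReal + 1) ∈ (F : Filter ℕ)
        have : (fun n => Lf u (r n) x) ⁻¹' Icc 0 (K.toReal + 1) = univ :=
          eq_univ_of_forall fun n => ⟨hnn n x hx, hle n x hx⟩
        rw [this]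
        exact univ_mem)
    exact ⟨l, hl⟩
  choose! L hL using hlim
  refine ⟨L, ?_, ?_, ?_, ?_⟩
  · intro x hx y hy hxy
    exact le_of_tendsto_of_tendsto' (hL x hx) (hL y hy) fun n =>
      Lf_mono hT h (r n) hx.1 hxy hy.2
  · intro x hx
    exact ge_of_tendsto' (hL x hx) fun n => hnn n x hx
  · have h1 : Tendsto (fun n : ℕ => K.toReal + 1 / ((n : ℝ) + 1)) F (𝓝 (K.toReal + 0)) :=
      (tendsto_one_div_add_atTop_nhds_zero_nat.mono_left hF).const_add _
    rw [add_zero] at h1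
    exact le_of_tendsto_of_tendsto' (hL T ⟨hT, le_rfl⟩) h1 hr2
  · intro s t hs hst ht w hw
    have hs' : s ∈ Icc 0 T := ⟨hs, hst.trans ht⟩
    have ht' : t ∈ Icc 0 T := ⟨hs.trans hst, ht⟩
    -- the increments of the defect
    have h2r : Tendsto (fun n => 2 * r n) atTop atTop :=
      tendsto_atTop_mono (fun n => by omega) hr
    have d1 := ((defect_lim hT h ht').comp h2r).sub ((defect_lim hT h hs').comp h2r)
    have d2 : ∀ n, -(∫ τ in (0 : ℝ)..t, flux (u τ) (2 * r n))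
        - -(∫ τ in (0 : ℝ)..s, flux (u τ) (2 * r n))
        = -∫ τ in s..t, flux (u τ) (2 * r n) := by
      intro n
      have i1 := (bal hT h (2 * r n)).1
      rw [← intervalIntegral.integral_interval_sub_left (sub_ii i1 le_rfl ht'.1 ht)
        (sub_ii i1 le_rfl hs hs'.2)]
      ring
    have d3 : Tendsto (fun n => |∫ τ in s..t, flux (u τ) (2 * r n)|) atTop
        (𝓝 |energyDefect ν u f t - energyDefect ν u f s|) := by
      refine (d1.abs).congr fun n => ?_
      show |-(∫ τ in (0 : ℝ)..t, flux (u τ) (2 * r n))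
        - -(∫ τ in (0 : ℝ)..s, flux (u τ) (2 * r n))| = _
      rw [d2 n, abs_neg]
    have e1 : Tendsto (fun n => 4 * (Real.sqrt 125 * w + SA1 (2 * r n) (u s)
        / Real.sqrt (((r n : ℕ) : ℝ) ^ 3)) * (Lf u (r n) t - Lf u (r n) s + zf u T (r n))) F
        (𝓝 (4 * (Real.sqrt 125 * w + 0) * (L t - L s + 0))) := by
      have g1 : Tendsto (fun n => SA1 (2 * r n) (u s) / Real.sqrt (((r n : ℕ) : ℝ) ^ 3)) F (𝓝 0) :=
        ((SA1_lim (summable_msq h hs')).comp hr).mono_left hF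
      have g2 : Tendsto (fun n => zf u T (r n)) F (𝓝 0) :=
        ((zf_lim hT h).comp hr).mono_left hF
      exact ((g1.const_add _).const_mul 4).mul (((hL t ht').sub (hL s hs')).add g2)
    have e2 := le_of_tendsto_of_tendsto (d3.mono_left hF) e1 (Eventually.of_forall fun n =>
      key_N hT h (le_trans (Nat.le_add_left 1 n) (hr1 n)) hs hst ht hw)
    refine e2.trans (le_of_eq ?_)
    unfold cb
    ring

end Pool.Agent.Helper30.TB
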