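import Mathlib
import Pool.Agent.Helper30.TB.Limit
import Pool.Agent.Helper30.TB.Emb
import Pool.Agent.Helper30.TB.Final

/-!
The energy defect of weak solutions on the torus with bounded band energies is a sum of jumps.
-/

set_option autoImplicit false

namespace Pool.Agent.Helper30.TB

open MeasureTheory Set Filter Topology Function
open scoped ENNReal

variable {ν T : ℝ} {u f : ℝ → Fld}

theorem bandK_eq : bandK T u = liminf (fun N : ℕ => ENNReal.ofReal (Lf u N T)) atTop := rfl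

/-- the hypotheses of the abstract part -/
theorem hypL (hT : 0 ≤ T) (h : IsWeakSolution ν T u f) {C : ℝ} (hC0 : 0 ≤ C)
    (hC : ∀ t ∈ Icc 0 T, nrm2 (u t) ≤ C) {L : ℝ → ℝ} (h1 : MonotoneOn L (Icc 0 T))
    (h2 : ∀ s t, 0 ≤ s → s ≤ t → t ≤ T → ∀ w,
        (∀ x ∈ Icc s t, Real.sqrt (nrm2 (u x - u s)) ≤ w) →
        |energyDefect ν u f t - energyDefect ν u f s| ≤ cb * w * (L t - L s)) :
    HypL cb (2 * Real.sqrt C) (fun x => L (cl T x)) (fun x => energyDefect ν u f (cl T x))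
      (fun x => em (u (cl T x))) where
  c0 := cb_nonneg
  mono := fun x y hxy => h1 (cl_mem hT x) (cl_mem hT y) (cl_mono T hxy)
  bdd := fun x y => by
    have hs : ∀ x, Summable (msq (u (cl T x))) := fun x => summable_msq h (cl_mem hT x)
    have key : ∀ x, ‖em (u (cl T x))‖ ≤ Real.sqrt C := by
      intro x
      have hz : Summable (msq (0 : Fld)) := by
        have : msq (0 : Fld) = fun _ => 0 := by
          funext k
          simp [msq]
        rw [this]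
        exact summable_zero
      have h3 := em_sub (hs x) hz
      have h4 : em (0 : Fld) = 0 := by
        have h5 := em_sub hz hz
        unfold em
        rw [dif_pos hz]
        ext k j
        rfl
      rw [h4, sub_zero, sub_zero] at h3
      rw [h3]
      exact Real.sqrt_le_sqrt (hC _ (cl_mem hT x))
    refine (norm_sub_le _ _).trans ?_
    have := key x
    have := key y
    linarith
  key := fun s t hst ω hω => by
    refine h2 _ _ (cl_mem hT s).1 (cl_mono T hst) (cl_mem hT t).2 ω ?_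
    have h3 := intermediate_value_Icc hst (cl_cont T).continuousOn
    intro x hx
    obtain ⟨x', hx', rfl⟩ := h3 hx
    have h4 := hω x' hx' s ⟨le_rfl, hst⟩
    rwa [em_sub (summable_msq h (cl_mem hT _)) (summable_msq h (cl_mem hT _))] at h4
  lsc := fun t => by
    have h3 := asym hT h (cl_mem hT t)
    have h4 : Tendsto (cl T) (𝓝 t) (𝓝[Icc 0 T] (cl T t)) :=
      tendsto_nhdsWithin_iff.mpr ⟨(cl_cont T).tendsto t,
        Eventually.of_forall fun x => cl_mem hT x⟩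
    refine (h3.comp h4).congr fun s => ?_
    show nrm2 (u (cl T s) - u (cl T t)) - _ = _
    rw [em_sub_sq (summable_msq h (cl_mem hT _)) (summable_msq h (cl_mem hT _))]

theorem defect_zero : energyDefect ν u f 0 = 0 := by
  simp [energyDefect]

/-- the kinetic energy -/
theorem kin_lim (h : IsWeakSolution ν T u f) {τ : ℝ} (hτ : τ ∈ Icc 0 T) {F : Filter ℝ}
    (hF : F ≤ 𝓝[Icc 0 T] τ) {a : ℝ}
    (h1 : Tendsto (fun s => ‖em (u s) - em (u τ)‖ ^ 2) F (𝓝 (2 * a))) :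
    Tendsto (fun s => nrm2 (u s) / 2) F (𝓝 (nrm2 (u τ) / 2 + a)) := by
  have h2 : Tendsto (fun s => ∑' k, ip (u s) (u τ) k) F (𝓝 (nrm2 (u τ))) := by
    have := ((ip_cont h hτ τ hτ).tendsto).mono_left hF
    simp only [ip_self] at this
    exact this
  have h3 := ((h1.add (h2.const_mul 2)).sub (tendsto_const_nhds (x := nrm2 (u τ)))).div_const 2
  have e : (2 * a + 2 * nrm2 (u τ) - nrm2 (u τ)) / 2 = nrm2 (u τ) / 2 + a := by ring
  rw [e] at h3
  refine (tendsto_congr' ?_).mp h3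
  filter_upwards [hF self_mem_nhdsWithin] with s hs
  rw [em_sub_sq (summable_msq h hs) (summable_msq h hτ),
    nrm2_sub (summable_msq h hs) (summable_msq h hτ)]
  ring

/-- **The energy defect is a sum of jumps.** -/
theorem jumps (hT : 0 < T) (h : IsWeakSolution ν T u f) (hK : bandK T u ≠ ⊤) :
    ∃ a b : ℝ → ℝ, (∀ τ, 0 ≤ a τ ∧ 0 ≤ b τ) ∧ Summable a ∧ Summable b ∧
      (∀ t ∈ Icc 0 T, energyDefect ν u f t
        = ∑' τ, (Ioc 0 t).indicator a τ - ∑' τ, (Ico 0 t).indicator b τ) ∧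
      ∑' τ, ENNReal.ofReal (Real.sqrt (a τ) + Real.sqrt (b τ))
        ≤ ENNReal.ofReal (2 * Real.sqrt 2 * cb) * bandK T u ∧
      (∀ τ ∈ Ioc 0 T, Tendsto (fun s => nrm2 (u s) / 2) (𝓝[<] τ) (𝓝 (nrm2 (u τ) / 2 + a τ))) ∧
      (∀ τ ∈ Ico 0 T, Tendsto (fun s => nrm2 (u s) / 2) (𝓝[>] τ) (𝓝 (nrm2 (u τ) / 2 + b τ))) := by
  obtain ⟨C, hC0, hC⟩ := exists_bound h
  obtain ⟨L, hL1, hL2, hL3, hL4⟩ := exists_limit hT.le h (bandK_eq (u := u) ▸ hK)
  have H := hypL hT.le h hC0 hC hL1 hL4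
  obtain ⟨a, b, h0, hsa, hsb, hrep, hsum, hl, hr⟩ := final (K := (bandK T u).toReal)
    (D := energyDefect ν u f) (U := fun x => em (u x)) hT H defect_zero hL2
    (fun x hx => (hL1 hx ⟨hT.le, le_rfl⟩ hx.2).trans hL3)
  refine ⟨a, b, h0, hsa, hsb, hrep, ?_, ?_, ?_⟩
  · rw [ENNReal.ofReal_mul (by have := cb_nonneg; positivity), ENNReal.ofReal_toReal hK] at hsum
    exact hsum
  · intro τ hτ
    refine kin_lim h ⟨hτ.1.le, hτ.2⟩ ?_ (hl τ hτ)
    rw [← nhdsWithin_Ioo_eq_nhdsLT hτ.1]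
    exact nhdsWithin_mono _ fun x hx => ⟨hx.1.le, hx.2.le.trans hτ.2⟩
  · intro τ hτ
    refine kin_lim h ⟨hτ.1, hτ.2.le⟩ ?_ (hr τ hτ)
    rw [← nhdsWithin_Ioo_eq_nhdsGT hτ.2]
    exact nhdsWithin_mono _ fun x hx => ⟨hτ.1.trans hx.1.le, hx.2.le⟩

/-- no jumps, no defect -/
theorem zero_of_no_jumps {D : ℝ → ℝ} {a b : ℝ → ℝ}
    (hrep : ∀ t ∈ Icc 0 T, D t = ∑' τ, (Ioc 0 t).indicator a τ - ∑' τ, (Ico 0 t).indicator b τ)
    (ha : ∀ τ ∈ Ioc 0 T, a τ = 0) (hb : ∀ τ ∈ Ico 0 T, b τ = 0) : ∀ t ∈ Icc 0 T, D t = 0 := by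
  intro t ht
  rw [hrep t ht]
  have e1 : ∀ τ, (Ioc 0 t).indicator a τ = 0 := by
    intro τ
    by_cases hτ : τ ∈ Ioc 0 t
    · rw [indicator_of_mem hτ]
      exact ha τ ⟨hτ.1, hτ.2.trans ht.2⟩
    · rw [indicator_of_notMem hτ]
  have e2 : ∀ τ, (Ico 0 t).indicator b τ = 0 := by
    intro τ
    by_cases hτ : τ ∈ Ico 0 t
    · rw [indicator_of_mem hτ]
      exact hb τ ⟨hτ.1, hτ.2.trans_le ht.2⟩
    · rw [indicator_of_notMem hτ]
  simp only [e1, e2, tsum_zero, sub_zero]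

theorem eq_of_zero (hT : 0 < T) (h : IsWeakSolution ν T u f) (hK : bandK T u = 0) :
    ∀ t ∈ Icc 0 T, energyDefect ν u f t = 0 := by
  obtain ⟨a, b, h0, -, -, hrep, hsum, -, -⟩ := jumps hT h (by rw [hK]; exact ENNReal.zero_ne_top)
  rw [hK, mul_zero] at hsum
  have h1 : ∀ τ, ENNReal.ofReal (Real.sqrt (a τ) + Real.sqrt (b τ)) = 0 := fun τ =>
    (ENNReal.tsum_eq_zero.mp (le_antisymm hsum (zero_le))) τ
  have h2 : ∀ τ, a τ = 0 ∧ b τ = 0 := by
    intro τ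
    have h3 := ENNReal.ofReal_eq_zero.mp (h1 τ)
    have h4 := Real.sqrt_nonneg (a τ)
    have h5 := Real.sqrt_nonneg (b τ)
    constructor
    · exact (Real.sqrt_eq_zero (h0 τ).1).mp (by linarith)
    · exact (Real.sqrt_eq_zero (h0 τ).2).mp (by linarith)
  exact zero_of_no_jumps hrep (fun τ _ => (h2 τ).1) fun τ _ => (h2 τ).2

theorem eq_of_cont (hT : 0 < T) (h : IsWeakSolution ν T u f) (hK : bandK T u ≠ ⊤)
    (hc : ∀ t ∈ Icc 0 T, Tendsto (fun s => nrm2 (u s - u t)) (𝓝[Icc 0 T] t) (𝓝 0)) :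
    ∀ t ∈ Icc 0 T, energyDefect ν u f t = 0 := by
  obtain ⟨a, b, h0, -, -, hrep, hsum, hl, hr⟩ := jumps hT h hK
  have key : ∀ τ ∈ Icc 0 T, ∀ F : Filter ℝ, F ≤ 𝓝[Icc 0 T] τ →
      Tendsto (fun s => nrm2 (u s) / 2) F (𝓝 (nrm2 (u τ) / 2)) := by
    intro τ hτ F hF
    have h1 : Tendsto (fun s => ‖em (u s) - em (u τ)‖ ^ 2) F (𝓝 (2 * 0)) := by
      rw [mul_zero]
      refine (tendsto_congr' ?_).mp ((hc τ hτ).mono_left hF)
      filter_upwards [hF self_mem_nhdsWithin] with s hs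
      rw [em_sub_sq (summable_msq h hs) (summable_msq h hτ)]
    have h2 := kin_lim h hτ hF h1
    rwa [add_zero] at h2
  have ha : ∀ τ ∈ Ioc 0 T, a τ = 0 := by
    intro τ hτ
    have hne : (𝓝[<] τ).NeBot := inferInstance
    have h1 := key τ ⟨hτ.1.le, hτ.2⟩ (𝓝[<] τ) (by
      rw [← nhdsWithin_Ioo_eq_nhdsLT hτ.1]
      exact nhdsWithin_mono _ fun x hx => ⟨hx.1.le, hx.2.le.trans hτ.2⟩)
    have h2 := tendsto_nhds_unique h1 (hl τ hτ)
    linarith
  have hb : ∀ τ ∈ Ico 0 T, b τ = 0 := by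
    intro τ hτ
    have h1 := key τ ⟨hτ.1, hτ.2.le⟩ (𝓝[>] τ) (by
      rw [← nhdsWithin_Ioo_eq_nhdsGT hτ.2]
      exact nhdsWithin_mono _ fun x hx => ⟨hτ.1.trans hx.1.le, hx.2.le⟩)
    have h2 := tendsto_nhds_unique h1 (hr τ hτ)
    linarith
  exact zero_of_no_jumps hrep ha hb

/-- the shells -/
def shellS (N : ℝ) : Set Wv := {k : Wv | N ^ 2 < nsq k ∧ nsq k ≤ (2 * N) ^ 2}

/-- the class with bounded shell energies -/
theorem class_ne_top (hT : 0 ≤ T) (h : IsWeakSolution ν T u f) {C : ℝ}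
    (hC : ∀ N : ℕ, 1 ≤ N → (N : ℝ) ^ (5 / 2 : ℝ) * ∫ τ in (0 : ℝ)..T,
      ∑' k, (shellS N).indicator (msq (u τ)) k ≤ C) : bandK T u ≠ ⊤ := by
  have hC0 : 0 ≤ C := by
    refine le_trans ?_ (hC 1 le_rfl)
    exact mul_nonneg (by positivity) (intervalIntegral.integral_nonneg hT fun τ _ =>
      gE_nonneg (shellS ((1 : ℕ) : ℝ)) (u τ))
  -- the bands are covered by shells
  have hcov : ∀ (v : Fld), Summable (msq v) → ∀ (N J : ℕ),
      gE {k : Wv | (N : ℝ) ^ 2 < nsq k ∧ nsq k ≤ ((2 ^ J * N : ℕ) : ℝ) ^ 2} v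
        ≤ ∑ j ∈ Finset.range J, gE (shellS ((2 ^ j * N : ℕ) : ℝ)) v := by
    intro v hv N J
    induction J with
    | zero =>
      rw [Finset.range_zero, Finset.sum_empty]
      have : {k : Wv | (N : ℝ) ^ 2 < nsq k ∧ nsq k ≤ ((2 ^ 0 * N : ℕ) : ℝ) ^ 2} = ∅ := by
        ext k
        constructor
        · rintro ⟨h1, h2⟩
          rw [pow_zero, one_mul] at h2
          exact absurd h1 (not_lt.mpr h2)
        · intro h1
          exact absurd h1 (Set.notMem_empty k)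
      rw [this]
      unfold gE
      simp
    | succ J ih =>
      rw [Finset.sum_range_succ]
      have hd : Disjoint {k : Wv | (N : ℝ) ^ 2 < nsq k ∧ nsq k ≤ ((2 ^ J * N : ℕ) : ℝ) ^ 2}
          (shellS ((2 ^ J * N : ℕ) : ℝ)) := by
        rw [Set.disjoint_left]
        intro k h1 h2
        exact absurd h2.1 (not_lt.mpr h1.2)
      refine (gE_mono hv (B := {k : Wv | (N : ℝ) ^ 2 < nsq k ∧ nsq k ≤ ((2 ^ J * N : ℕ) : ℝ) ^ 2}
          ∪ shellS ((2 ^ J * N : ℕ) : ℝ)) ?_).trans ?_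
      · intro k hk
        have hk' : (N : ℝ) ^ 2 < nsq k ∧ nsq k ≤ ((2 ^ (J + 1) * N : ℕ) : ℝ) ^ 2 := hk
        rcases le_or_gt (nsq k) (((2 ^ J * N : ℕ) : ℝ) ^ 2) with h1 | h1
        · exact Or.inl ⟨hk'.1, h1⟩
        · refine Or.inr ⟨h1, hk'.2.trans (le_of_eq ?_)⟩
          push_cast
          ring
      · rw [gE_add hv hd]
        linarith
  have hb : ∀ N : ℕ, 1 ≤ N → Lf u N T ≤ 2 * C := by
    intro N hN
    have hNr : (1 : ℝ) ≤ N := by exact_mod_cast hN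
    have i1 : ∀ A : Set Wv, IntervalIntegrable (fun τ => gE A (u τ)) volume 0 T := fun A =>
      gE_ii hT h A
    have h1 : ∫ τ in (0 : ℝ)..T, gE (bandS N) (u τ)
        ≤ ∫ τ in (0 : ℝ)..T, ∑ j ∈ Finset.range N, gE (shellS ((2 ^ j * N : ℕ) : ℝ)) (u τ) := by
      refine intervalIntegral.integral_mono_on hT (i1 _)
        (Pool.Agent.N983.WK.bal_sumr _ (fun j τ => gE (shellS ((2 ^ j * N : ℕ) : ℝ)) (u τ)) 0 T
          fun j _ => i1 _) fun τ hτ => ?_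
      refine (gE_mono (summable_msq h hτ) ?_).trans (hcov (u τ) (summable_msq h hτ) N N)
      intro k hk
      refine ⟨hk.1, hk.2.trans ?_⟩
      have h2 : (N : ℝ) ≤ 2 ^ N := by exact_mod_cast (Nat.lt_two_pow_self (n := N)).le
      calc (N : ℝ) ^ (5 / 2 : ℝ) ≤ (N : ℝ) ^ (4 : ℝ) :=
            Real.rpow_le_rpow_of_exponent_le hNr (by norm_num)
        _ = ((N : ℝ) * N) ^ 2 := by
            rw [show (4 : ℝ) = ((4 : ℕ) : ℝ) by norm_num, Real.rpow_natCast]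
            ring
        _ ≤ ((2 ^ N * N : ℕ) : ℝ) ^ 2 := by
            push_cast
            gcongr
    rw [intervalIntegral.integral_finsetSum fun j _ => i1 _] at h1
    have h3 : ∀ j : ℕ, (N : ℝ) ^ (5 / 2 : ℝ)
        * ∫ τ in (0 : ℝ)..T, gE (shellS ((2 ^ j * N : ℕ) : ℝ)) (u τ) ≤ C * (1 / 2) ^ j := by
      intro j
      have h4 := hC (2 ^ j * N) (Nat.one_le_iff_ne_zero.mpr (by positivity))
      have e1 : (((2 ^ j * N : ℕ) : ℝ)) ^ (5 / 2 : ℝ)
          = ((2 : ℝ) ^ j) ^ (5 / 2 : ℝ) * (N : ℝ) ^ (5 / 2 : ℝ) := by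
        push_cast
        rw [Real.mul_rpow (by positivity) (by positivity)]
      have e2 : (2 : ℝ) ^ j ≤ ((2 : ℝ) ^ j) ^ (5 / 2 : ℝ) := by
        calc (2 : ℝ) ^ j = ((2 : ℝ) ^ j) ^ (1 : ℝ) := (Real.rpow_one _).symm
          _ ≤ ((2 : ℝ) ^ j) ^ (5 / 2 : ℝ) :=
            Real.rpow_le_rpow_of_exponent_le (one_le_pow₀ (by norm_num)) (by norm_num)
      set I := ∫ τ in (0 : ℝ)..T, gE (shellS ((2 ^ j * N : ℕ) : ℝ)) (u τ) with hI
      have hI0 : 0 ≤ I := intervalIntegral.integral_nonneg hT fun τ _ => gE_nonneg _ _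
      have h5 : (2 : ℝ) ^ j * ((N : ℝ) ^ (5 / 2 : ℝ) * I) ≤ C := by
        refine le_trans ?_ h4
        show _ ≤ (((2 ^ j * N : ℕ) : ℝ)) ^ (5 / 2 : ℝ) * I
        rw [e1, mul_assoc]
        gcongr
      rw [one_div, inv_pow, ← div_eq_mul_inv, le_div_iff₀ (by positivity), mul_comm]
      exact h5
    have h6 : Lf u N T ≤ ∑ j ∈ Finset.range N, C * (1 / 2) ^ j := by
      unfold Lf
      calc (N : ℝ) ^ (5 / 2 : ℝ) * ∫ τ in (0 : ℝ)..T, gE (bandS N) (u τ)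
          ≤ (N : ℝ) ^ (5 / 2 : ℝ) * ∑ j ∈ Finset.range N,
              ∫ τ in (0 : ℝ)..T, gE (shellS ((2 ^ j * N : ℕ) : ℝ)) (u τ) := by gcongr
        _ = ∑ j ∈ Finset.range N, (N : ℝ) ^ (5 / 2 : ℝ)
              * ∫ τ in (0 : ℝ)..T, gE (shellS ((2 ^ j * N : ℕ) : ℝ)) (u τ) := Finset.mul_sum _ _ _
        _ ≤ _ := Finset.sum_le_sum fun j _ => h3 j
    rw [← Finset.mul_sum] at h6
    have h7 : ∑ j ∈ Finset.range N, (1 / 2 : ℝ) ^ j ≤ 2 := by
      have := summable_geometric_two.sum_le_tsum (Finset.range N) fun j _ => by positivity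
      rwa [tsum_geometric_two] at this
    calc Lf u N T ≤ C * ∑ j ∈ Finset.range N, (1 / 2 : ℝ) ^ j := h6
      _ ≤ C * 2 := by gcongr
      _ = 2 * C := by ring
  rw [bandK_eq]
  refine ne_top_of_le_ne_top ENNReal.ofReal_ne_top
    (liminf_le_of_frequently_le' (x := ENNReal.ofReal (2 * C)) ?_)
  refine Eventually.frequently ?_
  filter_upwards [eventually_ge_atTop 1] with N hN
  exact ENNReal.ofReal_le_ofReal (hb N hN)

end Pool.Agent.Helper30.TB
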